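import Mathlib
import Pool.Agent.H440R2.LFL2

/-!
# Conway's permutation: local minima of cycles

`cw (2 n) = 3 n`, `cw (4 n + 1) = 3 n + 1`, `cw (4 n - 1) = 3 n - 1`.
-/

set_option autoImplicit false

namespace Pool.Agent.W2helper46.CW

/-- Conway's permutation -/
def cw (n : ℕ) : ℕ :=
  if n % 2 = 0 then 3 * (n / 2) else if n % 4 = 1 then 3 * (n / 4) + 1 else 3 * (n / 4) + 2

lemma cw_even {n : ℕ} (h : n % 2 = 0) : 2 * cw n = 3 * n := by
  unfold cw
  rw [if_pos h]
  omega

lemma cw_odd {n : ℕ} (h : n % 2 = 1) : 4 * cw n = 3 * n + 1 ∨ 4 * cw n + 1 = 3 * n := by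
  unfold cw
  rw [if_neg (by omega)]
  split_ifs with h2
  · left; omega
  · right; omega

lemma cw_pos {n : ℕ} (h : 0 < n) : 0 < cw n := by
  rcases Nat.mod_two_eq_zero_or_one n with h2 | h2
  · have := cw_even h2; omega
  · have := cw_odd h2; omega

lemma it_pos {n : ℕ} (h : 0 < n) (i : ℕ) : 0 < cw^[i] n := by
  induction i with
  | zero => exact h
  | succ i ih => rw [Function.iterate_succ_apply']; exact cw_pos ih

/-- index `i + 1` is a local minimum of the orbit -/
def lm (x i : ℕ) : Prop := cw^[i + 1] x < cw^[i] x ∧ cw^[i + 1] x < cw^[i + 2] x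

instance (x : ℕ) : DecidablePred (lm x) := fun i => by unfold lm; infer_instance

/-- number of local minima among `P` consecutive elements -/
def nmin (x P : ℕ) : ℕ := Nat.count (lm x) P

/-! ### the smallest element of a cycle -/

lemma abs_log_le {u : ℝ} (hu : |u| ≤ 1 / 2) : |Real.log (1 + u)| ≤ 2 * |u| := by
  have h1 := abs_le.1 hu
  have hpos : 0 < 1 + u := by linarith
  have hup := Real.log_le_sub_one_of_pos hpos
  have hlow := Real.one_sub_inv_le_log_of_pos hpos
  have h2 : 1 - (1 + u)⁻¹ = u / (1 + u) := by field_simp; ring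
  rw [h2] at hlow
  rw [abs_le]
  constructor
  · rcases le_or_gt 0 u with h | h
    · have : 0 ≤ u / (1 + u) := by positivity
      have := abs_nonneg u
      linarith
    · rw [abs_of_neg h]
      have h3 : u * 2 ≤ u / (1 + u) := by
        rw [le_div_iff₀ hpos]
        nlinarith
      linarith
  · have := le_abs_self u
    have := abs_nonneg u
    linarith

/-- the number of odd elements among the first `j` ones -/
def odd (x j : ℕ) : ℕ := Nat.count (fun i => cw^[i] x % 2 = 1) j

lemma odd_le (x j : ℕ) : odd x j ≤ j := Nat.count_le _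

lemma sum_log {x0 : ℕ} (hx : 0 < x0) (hmin : ∀ i, x0 ≤ cw^[i] x0) (j : ℕ) :
    |Real.log (cw^[j] x0) - Real.log x0 -
      (j * Real.log 3 - ((j + odd x0 j : ℕ) : ℝ) * Real.log 2)| ≤ j * (1 / (x0 : ℝ)) := by
  have hX : (1 : ℝ) ≤ x0 := by exact_mod_cast hx
  induction j with
  | zero => simp [odd]
  | succ j ih =>
    set z := cw^[j] x0 with hz
    have hz0 : 0 < z := it_pos hx j
    have hzX : (x0 : ℝ) ≤ z := by exact_mod_cast hmin j
    have hz' : cw^[j + 1] x0 = cw z := Function.iterate_succ_apply' cw j x0
    have hcz : 0 < cw z := cw_pos hz0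
    have hzR : (0 : ℝ) < z := by exact_mod_cast hz0
    have hczR : (0 : ℝ) < cw z := by exact_mod_cast hcz
    have hstep : |Real.log (cw z) - Real.log z - (Real.log 3 -
        ((1 + (if z % 2 = 1 then 1 else 0) : ℕ) : ℝ) * Real.log 2)| ≤ 1 / (x0 : ℝ) := by
      have h0 : (0 : ℝ) ≤ 1 / (x0 : ℝ) := by positivity
      rcases Nat.mod_two_eq_zero_or_one z with h | h
      · have e := cw_even h
        have e' : (2 : ℝ) * cw z = 3 * z := by exact_mod_cast e
        have e2 := congrArg Real.log e'
        rw [Real.log_mul (by norm_num) hczR.ne', Real.log_mul (by norm_num) hzR.ne'] at e2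
        rw [if_neg (by omega)]
        have : Real.log (cw z) - Real.log z - (Real.log 3 - ((1 + 0 : ℕ) : ℝ) * Real.log 2) = 0 := by
          push_cast
          linarith
        rw [this, abs_zero]
        exact h0
      · rw [if_pos h]
        have hlog4 : Real.log 4 = 2 * Real.log 2 := by
          rw [show (4 : ℝ) = 2 ^ 2 by norm_num, Real.log_pow]; norm_num
        have key : ∀ u : ℝ, |u| = 1 / (3 * z) → (4 : ℝ) * cw z = 3 * z * (1 + u) →
            |Real.log (cw z) - Real.log z - (Real.log 3 - ((1 + 1 : ℕ) : ℝ) * Real.log 2)| ≤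
              1 / (x0 : ℝ) := by
          intro u hu he
          have hz1 : (1 : ℝ) ≤ z := by exact_mod_cast hz0
          have hu2 : |u| ≤ 1 / 2 := by
            rw [hu]
            apply div_le_div_of_nonneg_left (by norm_num) (by norm_num)
            linarith
          have h1u : 0 < 1 + u := by have := (abs_le.1 hu2).1; linarith
          have e2 := congrArg Real.log he
          rw [Real.log_mul (by norm_num) hczR.ne', Real.log_mul (by positivity) h1u.ne',
            Real.log_mul (by norm_num) hzR.ne', hlog4] at e2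
          have e3 : Real.log (cw z) - Real.log z - (Real.log 3 - ((1 + 1 : ℕ) : ℝ) * Real.log 2) =
              Real.log (1 + u) := by
            push_cast
            linarith
          rw [e3]
          refine (abs_log_le hu2).trans ?_
          rw [hu, mul_one_div]
          rw [div_le_div_iff₀ (by positivity) (by positivity)]
          nlinarith
        rcases cw_odd h with e | e
        · have e' : (4 : ℝ) * cw z = 3 * z + 1 := by exact_mod_cast e
          refine key (1 / (3 * z)) (abs_of_pos (by positivity)) ?_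
          rw [e']
          field_simp
        · have e' : (4 : ℝ) * cw z + 1 = 3 * z := by exact_mod_cast e
          refine key (-(1 / (3 * z))) (by rw [abs_neg, abs_of_pos (by positivity)]) ?_
          have : (4 : ℝ) * cw z = 3 * z - 1 := by linarith
          rw [this]
          field_simp
          ring
    have hodd : odd x0 (j + 1) = odd x0 j + (if z % 2 = 1 then 1 else 0) := by
      unfold odd
      rw [Nat.count_succ]
    rw [hz', hodd]
    have e : Real.log (cw z) - Real.log x0 - (((j + 1 : ℕ) : ℝ) * Real.log 3 -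
        ((j + 1 + (odd x0 j + (if z % 2 = 1 then 1 else 0)) : ℕ) : ℝ) * Real.log 2) =
        (Real.log z - Real.log x0 - (j * Real.log 3 - ((j + odd x0 j : ℕ) : ℝ) * Real.log 2)) +
        (Real.log (cw z) - Real.log z - (Real.log 3 -
          ((1 + (if z % 2 = 1 then 1 else 0) : ℕ) : ℝ) * Real.log 2)) := by
      push_cast
      ring
    rw [e]
    refine (abs_add_le _ _).trans ?_
    push_cast
    push_cast at ih hstep
    linarith

/-- the bound for the logarithm of the smallest element -/
noncomputable def F (P : ℕ) : ℝ := 22000000 * (11 + Real.log P) ^ 2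

lemma log_const : Real.log 1740 + Real.log 16 ≤ 104 / 10 := by
  have h1 : Real.log 1740 ≤ Real.log (2 ^ 11) := Real.log_le_log (by norm_num) (by norm_num)
  have h2 : Real.log 16 = 4 * Real.log 2 := by
    rw [show (16 : ℝ) = 2 ^ 4 by norm_num, Real.log_pow]; norm_num
  rw [Real.log_pow] at h1
  have h3 := Real.log_two_lt_d9
  push_cast at h1
  rw [h2]
  linarith

/-- the lower bound for the linear form in two logarithms -/
lemma form_ge {P a : ℕ} (hP : 1 ≤ P) (ha : a ≤ 2 * P) (ha1 : 1 ≤ a) :
    Real.exp (-(21381120 * (11 + Real.log P) ^ 2)) < |P * Real.log 3 - a * Real.log 2| := by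
  have hPR : (1 : ℝ) ≤ P := by exact_mod_cast hP
  have hlP : 0 ≤ Real.log P := Real.log_nonneg hPR
  set L : ℕ := ⌈167 + 16 * Real.log P⌉₊ with hL
  have hLge : 167 + 16 * Real.log P ≤ L := Nat.le_ceil _
  have hLle : (L : ℝ) ≤ 16 * (11 + Real.log P) := by
    have := Nat.ceil_lt_add_one (show (0 : ℝ) ≤ 167 + 16 * Real.log P by linarith)
    rw [← hL] at this
    linarith
  have hL0 : (0 : ℝ) < L := by linarith
  have hL1 : 1 ≤ L := by
    have : (1 : ℝ) ≤ L := by linarith
    exact_mod_cast this
  have hl2 : Real.log 2 ≤ 2 := by have := Real.log_two_lt_d9; linarith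
  have hl3 : Real.log 3 ≤ 2 := by
    have := Real.log_le_sub_one_of_pos (show (0 : ℝ) < 3 by norm_num)
    linarith
  have haR : (a : ℝ) ≤ 2 * P := by exact_mod_cast ha
  have ha0 : (0 : ℝ) < a := by exact_mod_cast ha1
  have hlfl := Pool.Agent.H440R2.lfl 2 3 a P 2 L Nat.prime_two Nat.prime_three (by norm_num) ha1
    hP (by norm_num) hL1 (by exact_mod_cast hl2) (by exact_mod_cast hl3) (by
      have h5 : Real.log (L / 16) ≤ L / 16 - 1 := Real.log_le_sub_one_of_pos (by positivity)
      have h6 : Real.log (290 * ((2 : ℕ) : ℝ) * L * ((a : ℝ) + P)) ≤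
          Real.log (1740 * (16 * (L / 16)) * P) := by
        apply Real.log_le_log (by positivity)
        have h7 : (a : ℝ) + P ≤ 3 * P := by linarith
        calc 290 * ((2 : ℕ) : ℝ) * L * ((a : ℝ) + P) ≤ 290 * ((2 : ℕ) : ℝ) * L * (3 * P) :=
              mul_le_mul_of_nonneg_left h7 (by positivity)
          _ = 1740 * (16 * (L / 16)) * P := by push_cast; ring
      have h8 : Real.log (1740 * (16 * ((L : ℝ) / 16)) * P) =
          Real.log 1740 + Real.log 16 + Real.log (L / 16) + Real.log P := by
        rw [Real.log_mul (by positivity) (by positivity), Real.log_mul (by norm_num)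
          (by positivity), Real.log_mul (by norm_num) (by positivity)]
        ring
      rw [h8] at h6
      have h9 := log_const
      have h10 : 8 * (1 + (Real.log 1740 + Real.log 16 + Real.log ((L : ℝ) / 16) +
          Real.log P)) ≤ L := by linarith
      exact (mul_le_mul_of_nonneg_left (add_le_add le_rfl h6) (by norm_num)).trans h10)
  have e1 : ((3 : ℕ) : ℝ) = 3 := by norm_num
  have e2 : ((2 : ℕ) : ℝ) = 2 := by norm_num
  rw [e1, e2] at hlfl
  refine lt_of_le_of_lt (Real.exp_le_exp.2 ?_) hlfl
  have h10 : (L : ℝ) ^ 2 ≤ (16 * (11 + Real.log P)) ^ 2 := pow_le_pow_left₀ hL0.le hLle 2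
  nlinarith

/-- **the smallest element of a cycle** -/
theorem min_bound (x0 P : ℕ) (hx : 0 < x0) (hP : 1 ≤ P) (hper : cw^[P] x0 = x0)
    (hmin : ∀ i, x0 ≤ cw^[i] x0) : Real.log x0 ≤ F P := by
  have hPR : (1 : ℝ) ≤ P := by exact_mod_cast hP
  have hlP : 0 ≤ Real.log P := Real.log_nonneg hPR
  have hX : (1 : ℝ) ≤ x0 := by exact_mod_cast hx
  have hs := sum_log hx hmin P
  rw [hper, sub_self, zero_sub, abs_neg] at hs
  have hodd := odd_le x0 P
  have h1 := form_ge (a := P + odd x0 P) hP (by omega) (by omega)
  have h2 := (h1.trans_le hs).le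
  rw [mul_one_div, le_div_iff₀ (by linarith), Real.exp_neg,
    inv_mul_le_iff₀ (Real.exp_pos _)] at h2
  have h3 := Real.log_le_log (by linarith) h2
  rw [Real.log_mul (Real.exp_pos _).ne' (by linarith), Real.log_exp] at h3
  unfold F
  nlinarith

end Pool.Agent.W2helper46.CW
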