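import Mathlib
import Pool.Agent.W2helper46.CW.Base

/-!
# Conway's permutation: cycles with few local minima
-/

set_option autoImplicit false

open Filter Topology

namespace Pool.Agent.W2helper46.CW

/-- `log 3 / log 2` -/
noncomputable def la : ℝ := Real.log 3 / Real.log 2

lemma log2_pos : 0 < Real.log 2 := Real.log_pos (by norm_num)

lemma la_gt : 1 < la := by
  unfold la
  rw [one_lt_div log2_pos]
  exact Real.log_lt_log (by norm_num) (by norm_num)

lemma log3 : Real.log 3 = la * Real.log 2 := by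
  unfold la
  field_simp

/-- the invariant along the orbit -/
def Inv (x0 : ℕ) (i : ℕ) : Prop :=
  ∃ y : ℕ, 0 < y ∧ Real.log y ≤ la ^ (Nat.count (lm x0) i) * Real.log x0 ∧
    ((∃ j : ℕ, 2 ^ j ∣ y ∧ 2 ^ j * cw^[i] x0 = 3 ^ j * y) ∨
      (cw^[i] x0 % 2 = 1 ∧ Real.log (cw^[i] x0) ≤ la * Real.log y))

lemma log_of_up {y z j : ℕ} (hy : 0 < y) (hz : 0 < z) (h1 : 2 ^ j ∣ y)
    (h2 : 2 ^ j * z = 3 ^ j * y) : Real.log z ≤ la * Real.log y := by
  have hyR : (0 : ℝ) < y := by exact_mod_cast hy
  have hzR : (0 : ℝ) < z := by exact_mod_cast hz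
  have h3 : (2 : ℝ) ^ j ≤ y := by exact_mod_cast Nat.le_of_dvd hy h1
  have h4 : (j : ℝ) * Real.log 2 ≤ Real.log y := by
    rw [← Real.log_pow]
    exact Real.log_le_log (by positivity) h3
  have h5 : (2 : ℝ) ^ j * z = 3 ^ j * y := by exact_mod_cast h2
  have h6 := congrArg Real.log h5
  rw [Real.log_mul (by positivity) hzR.ne', Real.log_mul (by positivity) hyR.ne', Real.log_pow,
    Real.log_pow, log3] at h6
  have h7 := la_gt
  have h8 := mul_le_mul_of_nonneg_left h4 (sub_nonneg.2 h7.le)
  nlinarith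

lemma inv_log {x0 i : ℕ} (hx : 0 < x0) (h : Inv x0 i) :
    Real.log (cw^[i] x0) ≤ la ^ (Nat.count (lm x0) i + 1) * Real.log x0 := by
  obtain ⟨y, hy, h1, h2⟩ := h
  have h3 : Real.log (cw^[i] x0) ≤ la * Real.log y := by
    rcases h2 with ⟨j, hj, hj2⟩ | ⟨-, h2⟩
    · exact log_of_up hy (it_pos hx i) hj hj2
    · exact h2
  have h4 := la_gt
  calc Real.log (cw^[i] x0) ≤ la * Real.log y := h3
    _ ≤ la * (la ^ (Nat.count (lm x0) i) * Real.log x0) :=
        mul_le_mul_of_nonneg_left h1 (by linarith)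
    _ = _ := by ring

lemma inv_all {x0 : ℕ} (hx : 0 < x0) (hge : ∀ i, 2 ≤ cw^[i] x0) (i : ℕ) : Inv x0 i := by
  have hla := la_gt
  have hx0 : 0 ≤ Real.log x0 := Real.log_nonneg (by exact_mod_cast hx)
  induction i with
  | zero =>
    refine ⟨x0, hx, ?_, Or.inl ⟨0, by simp, by simp⟩⟩
    simp
  | succ i ih =>
    obtain ⟨y, hy, h1, h2⟩ := ih
    set z := cw^[i] x0 with hz
    have hz0 : 0 < z := it_pos hx i
    have hz' : cw^[i + 1] x0 = cw z := Function.iterate_succ_apply' cw i x0
    have hmono : Nat.count (lm x0) i ≤ Nat.count (lm x0) (i + 1) :=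
      Nat.count_monotone _ (Nat.le_succ i)
    have hpow : la ^ (Nat.count (lm x0) i) * Real.log x0 ≤
        la ^ (Nat.count (lm x0) (i + 1)) * Real.log x0 :=
      mul_le_mul_of_nonneg_right (pow_le_pow_right₀ hla.le hmono) hx0
    have hzlog : Real.log z ≤ la * Real.log y := by
      rcases h2 with ⟨j, hj, hj2⟩ | ⟨-, h2⟩
      · exact log_of_up hy hz0 hj hj2
      · exact h2
    rcases Nat.mod_two_eq_zero_or_one z with hzp | hzp
    · -- even
      have e1 := cw_even hzp
      rcases h2 with ⟨j, hj, hj2⟩ | ⟨h3, -⟩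
      · refine ⟨y, hy, h1.trans hpow, Or.inl ⟨j + 1, ?_, ?_⟩⟩
        · have h4 : 2 ^ (j + 1) ∣ 3 ^ j * y := by
            rw [← hj2, pow_succ]
            exact Nat.mul_dvd_mul_left _ (Nat.dvd_of_mod_eq_zero hzp)
          exact (Nat.Coprime.dvd_of_dvd_mul_left
            ((Nat.Coprime.pow_left _ (Nat.Coprime.pow_right _ (by norm_num)))) h4)
        · rw [hz', pow_succ, mul_assoc, e1, pow_succ]
          calc 2 ^ j * (3 * z) = 3 * (2 ^ j * z) := by ring
            _ = 3 ^ j * 3 * y := by rw [hj2]; ring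
      · omega
    · -- odd
      have e1 := cw_odd hzp
      have hz3 : 3 ≤ z := by
        have : 2 ≤ z := hge i
        omega
      have hlt : cw z < z := by omega
      have hcz : 0 < cw z := cw_pos hz0
      have hlog : Real.log (cw z) ≤ Real.log z :=
        Real.log_le_log (by exact_mod_cast hcz) (by exact_mod_cast hlt.le)
      rcases Nat.mod_two_eq_zero_or_one (cw z) with hp | hp
      · -- local minimum
        have e2 := cw_even hp
        have hlm : lm x0 i := by
          unfold lm
          have hz2 : cw^[i + 2] x0 = cw (cw z) := by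
            rw [← hz']
            exact Function.iterate_succ_apply' cw (i + 1) x0
          rw [hz', hz2]
          exact ⟨hlt, by omega⟩
        have hc : Nat.count (lm x0) (i + 1) = Nat.count (lm x0) i + 1 := by
          rw [Nat.count_succ, if_pos hlm]
        refine ⟨cw z, hcz, ?_, Or.inl ⟨0, by simp, by rw [hz']; simp⟩⟩
        rw [hc]
        calc Real.log (cw z) ≤ la * Real.log y := hlog.trans hzlog
          _ ≤ la * (la ^ (Nat.count (lm x0) i) * Real.log x0) :=
              mul_le_mul_of_nonneg_left h1 (by linarith)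
          _ = _ := by ring
      · refine ⟨y, hy, h1.trans hpow, Or.inr ⟨?_, ?_⟩⟩
        · rw [hz']; exact hp
        · rw [hz']; exact hlog.trans hzlog

/-- every window contains a local minimum -/
lemma window {x0 R : ℕ} {M : ℝ} (hx : 0 < x0) (hge : ∀ i, 2 ≤ cw^[i] x0)
    (hM : ∀ i, Real.log (cw^[i] x0) ≤ M) (hR : M < R * Real.log (6 / 5)) (i : ℕ) :
    ∃ k, i ≤ k ∧ k < i + 2 * R ∧ lm x0 k := by
  have hl65 : 0 < Real.log (6 / 5) := Real.log_pos (by norm_num)
  have hM0 : 0 ≤ M := (Real.log_nonneg (by exact_mod_cast it_pos hx 0)).trans (hM 0)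
  have hpos : ∀ i, (0 : ℝ) < (cw^[i] x0 : ℝ) := fun i => by exact_mod_cast it_pos hx i
  have hlog0 : ∀ i, 0 ≤ Real.log (cw^[i] x0) := fun i =>
    Real.log_nonneg (by exact_mod_cast it_pos hx i)
  -- an odd element
  have hodd : ∃ a, i ≤ a ∧ a < i + R ∧ cw^[a] x0 % 2 = 1 := by
    by_contra hcon
    push Not at hcon
    have hall : ∀ r, r ≤ R → Real.log (cw^[i] x0) + r * Real.log (6 / 5) ≤
        Real.log (cw^[i + r] x0) := by
      intro r
      induction r with
      | zero => intro _; simp
      | succ r ih =>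
        intro hr
        have h1 := ih (by omega)
        have h2 := hcon (i + r) (by omega) (by omega)
        have h3 := cw_even (n := cw^[i + r] x0) (by omega)
        have h4 : cw^[i + (r + 1)] x0 = cw (cw^[i + r] x0) := by
          rw [← add_assoc, Function.iterate_succ_apply']
        have h5 : (6 / 5 : ℝ) * (cw^[i + r] x0 : ℝ) ≤ (cw^[i + (r + 1)] x0 : ℝ) := by
          rw [h4]
          have : (2 : ℝ) * (cw (cw^[i + r] x0) : ℝ) = 3 * (cw^[i + r] x0 : ℝ) := by
            exact_mod_cast h3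
          have := hpos (i + r)
          linarith
        have h6 := Real.log_le_log (by have := hpos (i + r); positivity) h5
        rw [Real.log_mul (by norm_num) (hpos _).ne'] at h6
        push_cast
        linarith
    have h1 := hall R le_rfl
    have h2 := hM (i + R)
    have h3 := hlog0 i
    linarith
  obtain ⟨a, ha1, ha2, ha3⟩ := hodd
  -- the next even element
  have heven : ∃ c, a < c ∧ c ≤ a + R ∧ cw^[c] x0 % 2 = 0 := by
    by_contra hcon
    push Not at hcon
    have hall : ∀ r, r ≤ R → Real.log (cw^[a + r] x0) + r * Real.log (6 / 5) ≤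
        Real.log (cw^[a] x0) := by
      intro r
      induction r with
      | zero => intro _; simp
      | succ r ih =>
        intro hr
        have h1 := ih (by omega)
        have h2 : cw^[a + r] x0 % 2 = 1 := by
          rcases Nat.eq_zero_or_pos r with h0 | h0
          · rw [h0]; exact ha3
          · have := hcon (a + r) (by omega) (by omega)
            omega
        have h3 := cw_odd h2
        have h4 : cw^[a + (r + 1)] x0 = cw (cw^[a + r] x0) := by
          rw [← add_assoc, Function.iterate_succ_apply']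
        have h7 : 3 ≤ cw^[a + r] x0 := by
          have := hge (a + r)
          omega
        have h8 : 6 * cw (cw^[a + r] x0) ≤ 5 * cw^[a + r] x0 := by omega
        have h5 : (6 / 5 : ℝ) * (cw^[a + (r + 1)] x0 : ℝ) ≤ (cw^[a + r] x0 : ℝ) := by
          rw [h4]
          have : (6 : ℝ) * (cw (cw^[a + r] x0) : ℝ) ≤ 5 * (cw^[a + r] x0 : ℝ) := by
            exact_mod_cast h8
          linarith
        have h6 := Real.log_le_log (by have := hpos (a + (r + 1)); positivity) h5
        rw [Real.log_mul (by norm_num) (hpos _).ne'] at h6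
        push_cast
        linarith
    have h1 := hall R le_rfl
    have h2 := hM a
    have h3 := hlog0 (a + R)
    linarith
  classical
  have hex : ∃ c, a < c ∧ cw^[c] x0 % 2 = 0 := by
    obtain ⟨c, h1, -, h3⟩ := heven
    exact ⟨c, h1, h3⟩
  set c := Nat.find hex with hc
  obtain ⟨hc1, hc2⟩ := Nat.find_spec hex
  have hcle : c ≤ a + R := by
    obtain ⟨c', h1, h2, h3⟩ := heven
    exact (Nat.find_min' hex ⟨h1, h3⟩).trans h2
  have hprev : cw^[c - 1] x0 % 2 = 1 := by
    rcases Nat.lt_or_ge a (c - 1) with h | h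
    · have := Nat.find_min hex (m := c - 1) (by omega)
      push Not at this
      have := this h
      omega
    · have : c - 1 = a := by omega
      rw [this]; exact ha3
  refine ⟨c - 1, by omega, by omega, ?_⟩
  unfold lm
  have e1 : c - 1 + 1 = c := by omega
  have e2 : c - 1 + 2 = c + 1 := by omega
  rw [e1, e2]
  have h1 : cw^[c] x0 = cw (cw^[c - 1] x0) := by
    have h := Function.iterate_succ_apply' cw (c - 1) x0
    rwa [Nat.succ_eq_add_one, e1] at h
  have h2 : cw^[c + 1] x0 = cw (cw^[c] x0) := Function.iterate_succ_apply' _ _ _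
  have h3 := cw_odd hprev
  have h4 := cw_even (n := cw^[c] x0) hc2
  have h5 := hge (c - 1)
  have h6 := hge c
  rw [h2]
  constructor
  · rw [h1]; omega
  · omega

lemma count_ge {x0 R : ℕ} (h : ∀ i, ∃ k, i ≤ k ∧ k < i + 2 * R ∧ lm x0 k) (t : ℕ) :
    t ≤ Nat.count (lm x0) (2 * R * t) := by
  induction t with
  | zero => exact Nat.zero_le _
  | succ t ih =>
    obtain ⟨k, h1, h2, h3⟩ := h (2 * R * t)
    have h4 : Nat.count (lm x0) (2 * R * t) ≤ Nat.count (lm x0) k := Nat.count_monotone _ h1
    have h5 : Nat.count (lm x0) k < Nat.count (lm x0) (2 * R * t + 2 * R) :=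
      Nat.count_strict_mono h3 h2
    have h6 : 2 * R * (t + 1) = 2 * R * t + 2 * R := by ring
    rw [h6]
    omega

lemma la_le : la ≤ 8 / 5 := by
  unfold la
  rw [div_le_div_iff₀ log2_pos (by norm_num)]
  have h : Real.log (3 ^ 5) ≤ Real.log (2 ^ 8) := Real.log_le_log (by norm_num) (by norm_num)
  rw [Real.log_pow, Real.log_pow] at h
  push_cast at h
  linarith

lemma F_ge {P : ℕ} (hP : 1 ≤ P) : 1000 ≤ F P := by
  have hlP : 0 ≤ Real.log P := Real.log_nonneg (by exact_mod_cast hP)
  unfold F
  nlinarith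

/-- **length and number of local minima**, orbit of the smallest element -/
theorem length_bound (x0 P : ℕ) (hx : 0 < x0) (hP : 1 ≤ P) (hper : cw^[P] x0 = x0)
    (hxm : ∀ i, x0 ≤ cw^[i] x0) :
    (P : ℝ) ≤ 20 * F P * (nmin x0 P + 1) * la ^ nmin x0 P ∨ x0 = 1 := by
  have hla := la_gt
  have hla0 : 0 < la := by linarith
  rcases Nat.lt_or_ge 1 x0 with hx2 | hx2
  swap
  · right; omega
  left
  have hge : ∀ i, 2 ≤ cw^[i] x0 := fun i => (show 2 ≤ x0 from hx2).trans (hxm i)
  set B := nmin x0 P with hB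
  set M : ℝ := la ^ (B + 1) * Real.log x0 with hMdef
  have hlx : 0 ≤ Real.log x0 := Real.log_nonneg (by exact_mod_cast hx)
  have hM0 : 0 ≤ M := by positivity
  have hM : ∀ i, Real.log (cw^[i] x0) ≤ M := by
    intro i
    have e1 : cw^[i] x0 = cw^[i % P] x0 := by
      have hpp : Function.IsPeriodicPt cw P x0 := hper
      exact (hpp.iterate_mod_apply i).symm
    rw [e1]
    refine (inv_log hx (inv_all hx hge (i % P))).trans ?_
    rw [hMdef]
    refine mul_le_mul_of_nonneg_right (pow_le_pow_right₀ hla.le ?_) hlx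
    have : Nat.count (lm x0) (i % P) ≤ Nat.count (lm x0) P :=
      Nat.count_monotone _ (Nat.mod_lt _ hP).le
    rw [hB]
    unfold nmin
    omega
  set R : ℕ := ⌊6 * M⌋₊ + 1 with hRdef
  have hR1 : 6 * M < R := by
    rw [hRdef]
    push_cast
    exact Nat.lt_floor_add_one _
  have hR2 : (R : ℝ) ≤ 6 * M + 1 := by
    rw [hRdef]
    push_cast
    have := Nat.floor_le (show 0 ≤ 6 * M by positivity)
    linarith
  have hl : (1 / 6 : ℝ) ≤ Real.log (6 / 5) := by
    have := Real.one_sub_inv_le_log_of_pos (show (0 : ℝ) < 6 / 5 by norm_num)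
    norm_num at this
    linarith
  have hR : M < R * Real.log (6 / 5) := by
    have h1 : (R : ℝ) * (1 / 6) ≤ R * Real.log (6 / 5) :=
      mul_le_mul_of_nonneg_left hl (Nat.cast_nonneg _)
    linarith
  have hwin := window hx hge hM hR
  have h2R : 0 < 2 * R := by omega
  have hcnt := count_ge hwin (P / (2 * R))
  have hle : Nat.count (lm x0) (2 * R * (P / (2 * R))) ≤ B :=
    Nat.count_monotone _ (Nat.mul_div_le P (2 * R))
  have hPlt : P < 2 * R * (B + 1) := by
    have h1 := Nat.lt_mul_div_succ P h2R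
    have h2 : P / (2 * R) + 1 ≤ B + 1 := by omega
    exact h1.trans_le (Nat.mul_le_mul_left _ h2)
  have hPltR : (P : ℝ) ≤ 2 * R * (B + 1) := by exact_mod_cast hPlt.le
  have hlog := min_bound x0 P hx hP hper hxm
  have hF := F_ge hP
  have hlaB : 1 ≤ la ^ B := one_le_pow₀ hla.le
  have hFB : 1000 ≤ F P * la ^ B := by nlinarith
  have hM2 : 6 * M + 1 ≤ 10 * (F P * la ^ B) := by
    have h1 : M ≤ la ^ (B + 1) * F P := mul_le_mul_of_nonneg_left hlog (by positivity)
    have h2 : la ^ (B + 1) * F P = la * (F P * la ^ B) := by ring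
    have h3 : la * (F P * la ^ B) ≤ 8 / 5 * (F P * la ^ B) :=
      mul_le_mul_of_nonneg_right la_le (by linarith)
    linarith
  have hB1 : (0 : ℝ) ≤ (B : ℝ) + 1 := by positivity
  calc (P : ℝ) ≤ 2 * R * (B + 1) := hPltR
    _ ≤ 2 * (10 * (F P * la ^ B)) * (B + 1) := by
        refine mul_le_mul_of_nonneg_right ?_ hB1
        linarith
    _ = _ := by ring

end Pool.Agent.W2helper46.CW
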