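import Mathlib
import Pool.Agent.W2helper46.CW.Main

/-!
# Conway's permutation: finiteness of the cycles with few local minima
-/

set_option autoImplicit false

open Filter Topology

namespace Pool.Agent.W2helper46.CW

lemma count_congr' {p q : ℕ → Prop} [DecidablePred p] [DecidablePred q] {n : ℕ}
    (h : ∀ k, p k ↔ q k) : Nat.count p n = Nat.count q n := by
  induction n with
  | zero => simp
  | succ n ih =>
    rw [Nat.count_succ, Nat.count_succ, ih]
    by_cases hp : p n
    · rw [if_pos hp, if_pos ((h n).1 hp)]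
    · rw [if_neg hp, if_neg fun hq => hp ((h n).2 hq)]

lemma it_add (x a k : ℕ) : cw^[k] (cw^[a] x) = cw^[a + k] x := by
  rw [← Function.iterate_add_apply, add_comm]

lemma lm_shift (x a k : ℕ) : lm (cw^[a] x) k ↔ lm x (a + k) := by
  unfold lm
  rw [it_add, it_add, it_add]
  rfl

/-- pass to the smallest element of the cycle -/
lemma rotate {x P : ℕ} (hP : 1 ≤ P) (hper : cw^[P] x = x) :
    ∃ i0 i1, i0 < P ∧ cw^[P] (cw^[i0] x) = cw^[i0] x ∧ (∀ i, cw^[i0] x ≤ cw^[i] (cw^[i0] x)) ∧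
      cw^[i1] (cw^[i0] x) = x ∧ nmin (cw^[i0] x) P = nmin x P := by
  classical
  obtain ⟨i0, hi0, hmin⟩ := Finset.exists_min_image (Finset.range P) (fun i => cw^[i] x)
    ⟨0, Finset.mem_range.2 hP⟩
  rw [Finset.mem_range] at hi0
  have hpp : Function.IsPeriodicPt cw P x := hper
  refine ⟨i0, P - i0, hi0, ?_, ?_, ?_, ?_⟩
  · rw [it_add, add_comm, ← it_add, hper]
  · intro i
    rw [it_add, ← hpp.iterate_mod_apply (i0 + i)]
    exact hmin _ (Finset.mem_range.2 (Nat.mod_lt _ hP))
  · rw [it_add]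
    have : i0 + (P - i0) = P := by omega
    rw [this, hper]
  · have h1 : nmin (cw^[i0] x) P = Nat.count (fun k => lm x (i0 + k)) P :=
      count_congr' fun k => lm_shift x i0 k
    have h2 : Nat.count (fun k => lm x (P + k)) i0 = Nat.count (lm x) i0 := by
      refine count_congr' fun k => ?_
      rw [← lm_shift, hper]
    have h3 := Nat.count_add (lm x) i0 P
    have h4 := Nat.count_add (lm x) P i0
    rw [h2, add_comm P i0, h3] at h4
    rw [h1]
    unfold nmin
    omega

lemma all_log {x0 P : ℕ} (hx2 : 1 < x0) (hP : 1 ≤ P) (hper : cw^[P] x0 = x0)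
    (hxm : ∀ i, x0 ≤ cw^[i] x0) (i : ℕ) :
    Real.log (cw^[i] x0) ≤ la ^ (nmin x0 P + 1) * Real.log x0 := by
  have hx : 0 < x0 := by omega
  have hge : ∀ i, 2 ≤ cw^[i] x0 := fun i => (show 2 ≤ x0 from hx2).trans (hxm i)
  have hlx : 0 ≤ Real.log x0 := Real.log_nonneg (by exact_mod_cast hx)
  have e1 : cw^[i] x0 = cw^[i % P] x0 := by
    have hpp : Function.IsPeriodicPt cw P x0 := hper
    exact (hpp.iterate_mod_apply i).symm
  rw [e1]
  refine (inv_log hx (inv_all hx hge (i % P))).trans ?_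
  refine mul_le_mul_of_nonneg_right (pow_le_pow_right₀ la_gt.le ?_) hlx
  have : Nat.count (lm x0) (i % P) ≤ Nat.count (lm x0) P :=
    Nat.count_monotone _ (Nat.mod_lt _ hP).le
  unfold nmin
  omega

lemma it_one (i : ℕ) : cw^[i] 1 = 1 := Function.iterate_fixed (by decide) i

/-- **cycles of Conway's permutation**: a small element, and many local minima -/
theorem cycle_bounds (x P : ℕ) (hx : 1 < x) (hP : 1 ≤ P) (hper : cw^[P] x = x) :
    (∃ i < P, Real.log (cw^[i] x) ≤ F P) ∧
    Real.log x ≤ la ^ (nmin x P + 1) * F P ∧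
    (P : ℝ) ≤ 20 * F P * (nmin x P + 1) * la ^ nmin x P := by
  have hla := la_gt
  obtain ⟨i0, i1, hi0, hper0, hmin, hback, hn⟩ := rotate hP hper
  have hx0 : 0 < cw^[i0] x := it_pos (by omega) i0
  have hx1 : cw^[i0] x ≠ 1 := by
    intro h
    rw [h, it_one] at hback
    omega
  have hb1 := min_bound _ P hx0 hP hper0 hmin
  have hb2 := (length_bound _ P hx0 hP hper0 hmin).resolve_right hx1
  refine ⟨⟨i0, hi0, hb1⟩, ?_, ?_⟩
  · have h3 := all_log (by omega) hP hper0 hmin i1
    rw [hback, hn] at h3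
    exact h3.trans (mul_le_mul_of_nonneg_left hb1 (by positivity))
  · rw [hn] at hb2
    exact hb2

lemma real_bound {A c : ℝ} (hA : 0 < A) (hc : c < 1 / Real.log la) :
    ∃ L0 : ℝ, ∀ (P b : ℕ), 1 ≤ P → (b : ℝ) ≤ c * Real.log P →
      (P : ℝ) ≤ A * (1 + Real.log P) ^ 2 * (b + 1) * la ^ b → Real.log P ≤ L0 := by
  have hla := la_gt
  have hl : 0 < Real.log la := Real.log_pos hla
  set c' : ℝ := max c 0 with hc'
  have hc0 : 0 ≤ c' := le_max_right _ _
  set θ : ℝ := c' * Real.log la with hθ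
  have hθ1 : θ < 1 := by
    rw [hθ, ← lt_div_iff₀ hl]
    exact max_lt hc (by positivity)
  set ε : ℝ := 1 - θ with hε
  have hε0 : 0 < ε := by linarith
  set K : ℝ := max 1 (6 / ε) with hK
  have hK1 : 1 ≤ K := le_max_left _ _
  have hK2 : 6 / ε ≤ K := le_max_right _ _
  set A' : ℝ := A * (1 + c') * K ^ 3 with hA'
  refine ⟨2 * A' / ε, fun P b hP hb hmain => ?_⟩
  have hPR : (1 : ℝ) ≤ P := by exact_mod_cast hP
  set L := Real.log P with hL
  have hL0 : 0 ≤ L := Real.log_nonneg hPR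
  have hPe : (P : ℝ) = Real.exp L := (Real.exp_log (by linarith)).symm
  have hb' : (b : ℝ) ≤ c' * L := hb.trans (mul_le_mul_of_nonneg_right (le_max_left _ _) hL0)
  have h1 : la ^ b ≤ Real.exp (θ * L) := by
    have : la ^ b = Real.exp (b * Real.log la) := by
      rw [mul_comm, Real.exp_mul, Real.exp_log (by linarith), Real.rpow_natCast]
    rw [this, Real.exp_le_exp, hθ]
    have := mul_le_mul_of_nonneg_right hb' hl.le
    linarith
  have h2 : (b : ℝ) + 1 ≤ (1 + c') * (1 + L) := by nlinarith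
  have h3 : 1 + L ≤ K * Real.exp (ε * L / 6) := by
    have h4 := Real.add_one_le_exp (ε * L / 6)
    have h5 : L ≤ K * (ε * L / 6) := by
      have : 1 ≤ K * (ε / 6) := by
        rw [div_le_iff₀ hε0] at hK2
        linarith
      nlinarith
    nlinarith
  have h4 : (1 + L) ^ 3 ≤ K ^ 3 * Real.exp (ε * L / 2) := by
    have h5 : (1 + L) ^ 3 ≤ (K * Real.exp (ε * L / 6)) ^ 3 := pow_le_pow_left₀ (by linarith) h3 3
    have h6 : (K * Real.exp (ε * L / 6)) ^ 3 = K ^ 3 * Real.exp (ε * L / 2) := by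
      rw [mul_pow, ← Real.exp_nat_mul]
      congr 2
      push_cast
      ring
    rwa [h6] at h5
  have h5 : Real.exp L ≤ A' * Real.exp (ε * L / 2) * Real.exp (θ * L) := by
    rw [← hPe]
    calc (P : ℝ) ≤ A * (1 + L) ^ 2 * (b + 1) * la ^ b := hmain
      _ ≤ A * (1 + L) ^ 2 * ((1 + c') * (1 + L)) * Real.exp (θ * L) := by gcongr
      _ = A * (1 + c') * (1 + L) ^ 3 * Real.exp (θ * L) := by ring
      _ ≤ A * (1 + c') * (K ^ 3 * Real.exp (ε * L / 2)) * Real.exp (θ * L) := by gcongr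
      _ = _ := by rw [hA']; ring
  have h6 : Real.exp (ε * L / 2) ≤ A' := by
    have e1 : Real.exp L = Real.exp (ε * L / 2) * (Real.exp (ε * L / 2) * Real.exp (θ * L)) := by
      rw [← Real.exp_add, ← Real.exp_add]
      congr 1
      rw [hε]
      ring
    have e2 : A' * Real.exp (ε * L / 2) * Real.exp (θ * L) =
        A' * (Real.exp (ε * L / 2) * Real.exp (θ * L)) := by ring
    rw [e1, e2] at h5
    exact le_of_mul_le_mul_right h5 (by positivity)
  have h7 := Real.add_one_le_exp (ε * L / 2)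
  rw [le_div_iff₀ hε0]
  linarith

theorem finite_few {c : ℝ} (hc : c < 1 / Real.log la) :
    {x : ℕ | 0 < x ∧ ∃ P, 1 ≤ P ∧ cw^[P] x = x ∧ (nmin x P : ℝ) ≤ c * Real.log P}.Finite := by
  obtain ⟨L0, hL0⟩ := real_bound (A := 20 * 22000000 * 121) (by norm_num) hc
  have hla := la_gt
  set N : ℕ := ⌈Real.exp L0⌉₊ with hN
  set Mx : ℝ := la ^ (N + 1) * (22000000 * (11 + Real.log (N + 1)) ^ 2) with hMx
  refine (Set.finite_Iic ⌈Real.exp Mx⌉₊).subset ?_
  rintro x ⟨hx, P, hP, hper, hb⟩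
  rw [Set.mem_Iic]
  rcases Nat.lt_or_ge 1 x with h1 | h1
  · obtain ⟨-, h2, h3⟩ := cycle_bounds x P h1 hP hper
    have hPR : (1 : ℝ) ≤ P := by exact_mod_cast hP
    have hlP : 0 ≤ Real.log P := Real.log_nonneg hPR
    have h3' : (P : ℝ) ≤ 20 * 22000000 * 121 * (1 + Real.log P) ^ 2 * (nmin x P + 1) *
        la ^ nmin x P := by
      refine h3.trans ?_
      have h5 : 20 * F P ≤ 20 * 22000000 * 121 * (1 + Real.log P) ^ 2 := by
        unfold F
        nlinarith
      have h6 : (0 : ℝ) ≤ la ^ nmin x P := by positivity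
      gcongr
    have hL := hL0 P (nmin x P) hP hb h3'
    have hPN : P ≤ N := by
      have : (P : ℝ) ≤ Real.exp L0 := by
        rw [← Real.exp_log (show (0 : ℝ) < P by linarith)]
        exact Real.exp_le_exp.2 hL
      exact_mod_cast this.trans (Nat.le_ceil _)
    have hPNR : (P : ℝ) ≤ N := by exact_mod_cast hPN
    have hn : nmin x P ≤ N := (Nat.count_le _).trans hPN
    have hlog : Real.log P ≤ Real.log (N + 1) := Real.log_le_log (by linarith) (by linarith)
    have h4 : Real.log x ≤ Mx := by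
      refine h2.trans ?_
      rw [hMx]
      have h5 : la ^ (nmin x P + 1) ≤ la ^ (N + 1) := pow_le_pow_right₀ hla.le (by omega)
      unfold F
      gcongr
    have hxR : (0 : ℝ) < x := by exact_mod_cast hx
    have h5 : (x : ℝ) ≤ Real.exp Mx := by
      rw [← Real.exp_log hxR]
      exact Real.exp_le_exp.2 h4
    exact_mod_cast h5.trans (Nat.le_ceil _)
  · have h5 : (1 : ℝ) ≤ Real.exp Mx := by
      refine Real.one_le_exp ?_
      rw [hMx]
      positivity
    have h6 : (x : ℝ) ≤ ⌈Real.exp Mx⌉₊ := by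
      have : (x : ℝ) ≤ 1 := by exact_mod_cast h1
      exact (this.trans h5).trans (Nat.le_ceil _)
    exact_mod_cast h6

end Pool.Agent.W2helper46.CW
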