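import Pool.Agent.W2helper46.CW.Stm

/-! Piece CHK: kernel computation of the orbits of the small numbers (helper85). -/

set_option autoImplicit false

namespace Pool.Agent.W2helper46.CW

/-- a copy of `cw` for the kernel -/
def cwb (n : ℕ) : ℕ :=
  cond (Nat.beq (Nat.mod n (nat_lit 2)) (nat_lit 0)) (Nat.mul (nat_lit 3) (Nat.div n (nat_lit 2)))
    (cond (Nat.beq (Nat.mod n (nat_lit 4)) (nat_lit 1))
      (Nat.add (Nat.mul (nat_lit 3) (Nat.div n (nat_lit 4))) (nat_lit 1))
      (Nat.add (Nat.mul (nat_lit 3) (Nat.div n (nat_lit 4))) (nat_lit 2)))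

lemma cwb_eq (n : ℕ) : cwb n = cw n := by
  show cond (Nat.beq (n % 2) 0) (3 * (n / 2)) (cond (Nat.beq (n % 4) 1) (3 * (n / 4) + 1)
    (3 * (n / 4) + 2)) = cw n
  unfold cw
  by_cases h : n % 2 = 0
  · rw [if_pos h, h]
    rfl
  · rw [if_neg h]
    have hb : Nat.beq (n % 2) 0 = false := by
      rw [← Bool.not_eq_true, Nat.beq_eq]
      exact h
    rw [hb]
    by_cases h4 : n % 4 = 1
    · rw [if_pos h4, h4]
      rfl
    · rw [if_neg h4]
      have hb4 : Nat.beq (n % 4) 1 = false := by
        rw [← Bool.not_eq_true, Nat.beq_eq]
        exact h4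
      rw [hb4]
      rfl

/-- `x = k + 1` is the starting point, `z` and `w` are consecutive elements of the orbit, `n` is the
fuel, `c` local minima are allowed -/
noncomputable def run (k n : ℕ) : ℕ → ℕ → ℕ → Bool :=
  Nat.rec (motive := fun _ => ℕ → ℕ → ℕ → Bool) (fun _ _ _ => false)
    (fun _ ih z w c =>
      cond (Nat.ble w k) true
        (cond (Nat.beq w (Nat.succ k)) false
          (Nat.rec (motive := fun _ => Bool) false
            (fun u _ => cond (Nat.ble (Nat.succ w) z)
              (cond (Nat.ble (Nat.succ w) (Nat.succ u))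
                (Nat.rec (motive := fun _ => Bool) true (fun c' _ => ih w (Nat.succ u) c') c)
                (ih w (Nat.succ u) c))
              (ih w (Nat.succ u) c)) (cwb w)))) n

lemma run_succ (k n z w c : ℕ) : run k (n + 1) z w c =
    cond (Nat.ble w k) true
        (cond (Nat.beq w (Nat.succ k)) false
          (Nat.rec (motive := fun _ => Bool) false
            (fun u _ => cond (Nat.ble (Nat.succ w) z)
              (cond (Nat.ble (Nat.succ w) (Nat.succ u))
                (Nat.rec (motive := fun _ => Bool) true (fun c' _ => run k n w (Nat.succ u) c') c)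
                (run k n w (Nat.succ u) c))
              (run k n w (Nat.succ u) c)) (cwb w))) := rfl

/-- the conclusion of the piece -/
def Good (x : ℕ) : Prop :=
  ∃ i, (∀ j, 1 ≤ j → j ≤ i → cw^[j] x ≠ x) ∧ (cw^[i] x < x ∨ 5 ≤ Nat.count (lm x) i)

lemma run_ok (k : ℕ) (n : ℕ) : ∀ i c : ℕ,
    run k n (cw^[i] (k + 1)) (cw^[i + 1] (k + 1)) c = true →
    Nat.count (lm (k + 1)) i + c = 4 → (∀ j, 1 ≤ j → j ≤ i → cw^[j] (k + 1) ≠ k + 1) →
    Good (k + 1) := by
  induction n with
  | zero =>
    intro i c h
    exact absurd h Bool.false_ne_true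
  | succ n ih =>
    intro i c h hc hj
    rw [run_succ] at h
    cases h1 : Nat.ble (cw^[i + 1] (k + 1)) k with
    | true =>
      have h1' := Nat.le_of_ble_eq_true h1
      refine ⟨i + 1, fun j hj1 hj2 => ?_, Or.inl (Nat.lt_succ_of_le h1')⟩
      rcases Nat.lt_or_ge j (i + 1) with h3 | h3
      · exact hj j hj1 (Nat.le_of_lt_succ h3)
      · have h4 : j = i + 1 := le_antisymm hj2 h3
        rw [h4]
        omega
    | false =>
      rw [h1] at h
      cases h2 : Nat.beq (cw^[i + 1] (k + 1)) (Nat.succ k) with
      | true =>
        rw [h2] at h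
        exact absurd h Bool.false_ne_true
      | false =>
        rw [h2] at h
        have hne : cw^[i + 1] (k + 1) ≠ k + 1 := by
          intro e
          rw [← Nat.beq_eq] at e
          rw [show Nat.succ k = k + 1 from rfl] at h2
          rw [e] at h2
          exact absurd h2 (by decide)
        have hj' : ∀ j, 1 ≤ j → j ≤ i + 1 → cw^[j] (k + 1) ≠ k + 1 := by
          intro j hj1 hj2
          rcases Nat.lt_or_ge j (i + 1) with h3 | h3
          · exact hj j hj1 (Nat.le_of_lt_succ h3)
          · have h4 : j = i + 1 := le_antisymm hj2 h3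
            rw [h4]
            exact hne
        have hit : cw^[i + 2] (k + 1) = cwb (cw^[i + 1] (k + 1)) := by
          rw [cwb_eq, Function.iterate_succ_apply']
        cases hu : cwb (cw^[i + 1] (k + 1)) with
        | zero =>
          rw [hu] at h
          exact absurd h Bool.false_ne_true
        | succ u =>
          rw [hu] at h hit
          change (cond (Nat.ble (Nat.succ (cw^[i + 1] (k + 1))) (cw^[i] (k + 1)))
              (cond (Nat.ble (Nat.succ (cw^[i + 1] (k + 1))) (Nat.succ u))
                (Nat.rec (motive := fun _ => Bool) true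
                  (fun c' _ => run k n (cw^[i + 1] (k + 1)) (u + 1) c') c)
                (run k n (cw^[i + 1] (k + 1)) (u + 1) c))
              (run k n (cw^[i + 1] (k + 1)) (u + 1) c)) = true at h
          rw [← hit] at h
          have hcs := Nat.count_succ (lm (k + 1)) i
          cases h3 : Nat.ble (Nat.succ (cw^[i + 1] (k + 1))) (cw^[i] (k + 1)) with
          | false =>
            rw [h3] at h
            have hn : ¬ lm (k + 1) i := by
              rintro ⟨h5, -⟩
              have := Nat.ble_eq_true_of_le (Nat.succ_le_of_lt h5)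
              rw [this] at h3
              exact absurd h3 (by decide)
            rw [if_neg hn, Nat.add_zero] at hcs
            exact ih (i + 1) c h (by rw [hcs]; exact hc) hj'
          | true =>
            rw [h3] at h
            cases h4 : Nat.ble (Nat.succ (cw^[i + 1] (k + 1))) (cw^[i + 2] (k + 1)) with
            | false =>
              have h4' : Nat.ble (Nat.succ (cw^[i + 1] (k + 1))) (Nat.succ u) = false := by
                rw [← h4, hit]
              rw [h4'] at h
              have hn : ¬ lm (k + 1) i := by
                rintro ⟨-, h5⟩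
                have := Nat.ble_eq_true_of_le (Nat.succ_le_of_lt h5)
                rw [this] at h4
                exact absurd h4 (by decide)
              rw [if_neg hn, Nat.add_zero] at hcs
              exact ih (i + 1) c h (by rw [hcs]; exact hc) hj'
            | true =>
              have h4' : Nat.ble (Nat.succ (cw^[i + 1] (k + 1))) (Nat.succ u) = true := by
                rw [← h4, hit]
              rw [h4'] at h
              have hp : lm (k + 1) i :=
                ⟨Nat.lt_of_succ_le (Nat.le_of_ble_eq_true h3),
                  Nat.lt_of_succ_le (Nat.le_of_ble_eq_true h4)⟩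
              rw [if_pos hp] at hcs
              cases c with
              | zero => exact ⟨i + 1, hj', Or.inr (by omega)⟩
              | succ c => exact ih (i + 1) c h (by omega) hj'

/-- conjunction of `f 0, ..., f (n - 1)` -/
noncomputable def allB (f : ℕ → Bool) (n : ℕ) : Bool :=
  Nat.rec (motive := fun _ => Bool) true (fun i ih => cond (f i) ih false) n

lemma allB_ok (f : ℕ → Bool) (n : ℕ) (h : allB f n = true) : ∀ i < n, f i = true := by
  induction n with
  | zero => intro i hi; exact absurd hi (Nat.not_lt_zero _)
  | succ n ih =>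
    change cond (f n) (allB f n) false = true at h
    cases hf : f n with
    | false =>
      rw [hf] at h
      exact absurd h Bool.false_ne_true
    | true =>
      rw [hf] at h
      intro i hi
      rcases Nat.lt_or_ge i n with h1 | h1
      · exact ih h i h1
      · have : i = n := by omega
        rw [this]
        exact hf

/-- the test for the number `x` -/
noncomputable def test (x : ℕ) : Bool :=
  Nat.rec (motive := fun _ => Bool) true (fun k _ =>
    cond (Nat.beq (Nat.mod (Nat.succ k) (nat_lit 3)) (nat_lit 0)) true
      (cond (Nat.beq k (nat_lit 1)) true (cond (Nat.beq k (nat_lit 3)) true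
        (cond (Nat.beq k (nat_lit 43)) true
          (run k (nat_lit 60) (Nat.succ k) (cwb (Nat.succ k)) (nat_lit 4)))))) x

/-- the numbers in question are `2 (190 q + r)` -/
noncomputable def block (q : ℕ) : Bool :=
  allB (fun r => test (Nat.mul (nat_lit 2) (Nat.add (Nat.mul (nat_lit 190) q) r))) (nat_lit 190)

lemma test_ok (x : ℕ) (h : test x = true) (h1 : 1 < x) (h3 : x % 3 ≠ 0) (h2 : x ≠ 2) (h4 : x ≠ 4)
    (h44 : x ≠ 44) : Good x := by
  obtain ⟨k, rfl⟩ : ∃ k, x = k + 1 := ⟨x - 1, by omega⟩
  change cond (Nat.beq ((k + 1) % 3) 0) true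
      (cond (Nat.beq k 1) true (cond (Nat.beq k 3) true
        (cond (Nat.beq k 43) true (run k 60 (k + 1) (cwb (k + 1)) 4)))) = true at h
  have e0 : Nat.beq ((k + 1) % 3) 0 = false := by
    rw [← Bool.not_eq_true, Nat.beq_eq]
    exact h3
  have e1 : Nat.beq k 1 = false := by
    rw [← Bool.not_eq_true, Nat.beq_eq]
    omega
  have e2 : Nat.beq k 3 = false := by
    rw [← Bool.not_eq_true, Nat.beq_eq]
    omega
  have e3 : Nat.beq k 43 = false := by
    rw [← Bool.not_eq_true, Nat.beq_eq]
    omega
  rw [e0, e1, e2, e3] at h
  change run k 60 (k + 1) (cwb (k + 1)) 4 = true at h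
  rw [cwb_eq] at h
  exact run_ok k 60 0 4 h (by simp) (fun j h5 h6 => by omega)

set_option maxRecDepth 100000 in
theorem blocks : allB block 190 = true := by decide +kernel

theorem chk : CHK := by
  intro x h1 hx he h3 h2 h4 h44
  have hq : x / 2 / 190 < 190 := by omega
  have hr : x / 2 % 190 < 190 := Nat.mod_lt _ (by norm_num)
  have hb := allB_ok _ _ (allB_ok _ _ blocks (x / 2 / 190) hq) (x / 2 % 190) hr
  have e : Nat.mul (nat_lit 2) (Nat.add (Nat.mul (nat_lit 190) (x / 2 / 190)) (x / 2 % 190)) = x := by
    show 2 * (190 * (x / 2 / 190) + x / 2 % 190) = x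
    omega
  rw [e] at hb
  exact test_ok x hb h1 h3 h2 h4 h44

end Pool.Agent.W2helper46.CW
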