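import Pool.Agent.W2helper46.CW.Stm

set_option autoImplicit false

namespace Pool.Agent.W2helper46.CW

theorem enc : ENC := by
  have a1 := Real.sum_range_le_log_div (x := 1 / 3) (by norm_num) (by norm_num) 36
  have a2 := Real.log_div_le_sum_range_add (x := 1 / 3) (by norm_num) (by norm_num) 36
  have b1 := Real.sum_range_le_log_div (x := 1 / 5) (by norm_num) (by norm_num) 25
  have b2 := Real.log_div_le_sum_range_add (x := 1 / 5) (by norm_num) (by norm_num) 25
  have e1 : ((1 : ℝ) + 1 / 3) / (1 - 1 / 3) = 2 := by norm_num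
  have e2 : ((1 : ℝ) + 1 / 5) / (1 - 1 / 5) = 3 / 2 := by norm_num
  rw [e1] at a1 a2
  rw [e2, Real.log_div (by norm_num) (by norm_num)] at b1 b2
  norm_num [Finset.sum_range_succ] at a1 a2 b1 b2
  refine ⟨?_, ?_, ?_, ?_⟩
  · linarith
  · linarith
  · linarith
  · linarith

end Pool.Agent.W2helper46.CW
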