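import Mathlib
import Pool.Agent.W2helper46.CW.Fin

/-!
# Conway's permutation: the cycles with at most four local minima (statements of the pieces)

Goal: every cycle of Conway's permutation with at most four local minima is one of the four known
cycles. Definitions (`cw`, `lm`, `nmin`, `odd`, `la`, `F`) and tools are in `CW/Base.lean`,
`CW/Main.lean`, `CW/Fin.lean` of this folder. Each piece: a file `CW/<NAME>.lean` (for example
`CW/ENC.lean`) with `theorem enc : ENC := ...` in the namespace `Pool.Agent.W2helper46.CW`.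
-/

set_option autoImplicit false

namespace Pool.Agent.W2helper46.CW

/-- **Piece ENC** (30 lines). Proof: `Real.sum_range_le_log_div` and `Real.log_div_le_sum_range_add`
(Mathlib.Analysis.SpecialFunctions.Log.Deriv) with `x = 1/3`, `n = 36` (`(1+x)/(1-x) = 2`) and with
`x = 1/5`, `n = 25` (`(1+x)/(1-x) = 3/2`, and `log (3/2) = log 3 - log 2`); the sums are evaluated by
`norm_num [Finset.sum_range_succ]`. True values:
log 2 = 0.6931471805599453094172321214581765680755..., 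
log 3 = 1.0986122886681096913952452369225257046474... -/
def ENC : Prop :=
  (693147180559945309417232121458 / 10 ^ 30 : ℝ) ≤ Real.log 2 ∧
  Real.log 2 ≤ (693147180559945309417232121459 / 10 ^ 30 : ℝ) ∧
  (1098612288668109691395245236922 / 10 ^ 30 : ℝ) ≤ Real.log 3 ∧
  Real.log 3 ≤ (1098612288668109691395245236923 / 10 ^ 30 : ℝ)

/-- **Piece LOW** (70 lines). Proof. Farey lemma: let `A B > 0` be real, `p q p' q' : ℕ` with
`p' q - p q' = 1`, `δ > 0`, `δ ≤ q A - p B`, `δ ≤ p' B - q' A`. Then for `P, a : ℕ` with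
`1 ≤ P < q + q'`: `δ ≤ |P A - a B|`. Indeed put `u = P p' - a q'` and `v = a q - P p` (integers); then
`P = u q + v q'` and `a = u p + v p'`, so `P A - a B = u (q A - p B) - v (p' B - q' A)`. If
`u ≥ 1` and `v ≥ 1` then `P ≥ q + q'`; if `u ≤ 0` and `v ≤ 0` then `P ≤ 0`. So `u ≥ 1, v ≤ 0` or
`u ≤ 0, v ≥ 1`, and in both cases `|P A - a B| ≥ δ`. Use it with `A = log 3`, `B = log 2` and
(1) `(q, p) = (359, 569)`, `(q', p') = (306, 485)`, `q + q' = 665`;
(2) `(q, p) = (665, 1054)`, `(q', p') = (14936, 23673)`, `q + q' = 15601`;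
(3) `(q, p) = (753110839881, 1193652440098)`, `(q', p') = (5409303924479, 8573543875303)`,
`q + q' = 6162414764360`; the values `q A - p B`, `p' B - q' A` are 1.0659e-3, 1.0222e-3;
4.3654e-5, 6.1848e-5; 1.1896e-13, 6.5929e-14; they follow from `ENC` by `norm_num`/`linarith`. -/
def LOW : Prop :=
  ENC → ∀ P a : ℕ, 1 ≤ P →
    (P < 665 → (102 / 100000 : ℝ) ≤ |P * Real.log 3 - a * Real.log 2|) ∧
    (P < 15601 → (43 / 1000000 : ℝ) ≤ |P * Real.log 3 - a * Real.log 2|) ∧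
    (P < 6 * 10 ^ 12 → (6 / 10 ^ 14 : ℝ) ≤ |P * Real.log 3 - a * Real.log 2|)

/-- **Piece CHK** (80 lines, KERNEL COMPUTATION, 300 000 steps in all, no orbit needs more than 43
steps). Proof. Write a structurally recursive Boolean function
`run (x : ℕ) : ℕ → ℕ → ℕ → Bool` (fuel, current element `z`, number `c` of local minima met so far)
which applies `cw` and stops with `true` if the new element is `< x` or `c ≥ 5`, and with `false` if
the new element is `x` or the fuel is used up; prove that `run x 60 x 0 = true` gives the index `i`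
below, and prove by `decide +kernel` (in blocks, if necessary; the function may use its own copy of
`cw` written with `Nat.mod`, `Nat.div`, `Nat.ble`, `Nat.beq`) that it is `true` for all the `x` in
question. No `native_decide`. Note `lm x i` says `cw^[i+1] x < cw^[i] x ∧ cw^[i+1] x < cw^[i+2] x`;
for `cw^[i+1] x > 1` it is equivalent to: `cw^[i] x` odd, `cw^[i+1] x` even (one direction is enough;
it is also fine to compare the three values in `run`). Script check: true for all these `x`. -/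
def CHK : Prop :=
  ∀ x : ℕ, 1 < x → x ≤ 72000 → x % 2 = 0 → x % 3 ≠ 0 → x ≠ 2 → x ≠ 4 → x ≠ 44 →
    ∃ i, (∀ j, 1 ≤ j → j ≤ i → cw^[j] x ≠ x) ∧ (cw^[i] x < x ∨ 5 ≤ Nat.count (lm x) i)

/-- **Piece RED** (80 lines, real numbers). Proof. Recall `F P = 22000000 (11 + log P)²`.
(a) `P < e^28`: put `L = log P` and suppose `L = 28 + h`, `h ≥ 0`; then
`P = e^28 e^h ≥ 1.44·10^12 (1 + h + h²/2)`, but `P ≤ 31.6 F(P) = 6.952·10^8 (39 + h)²`
`= 6.952·10^8 (1521 + 78 h + h²) < 1.44·10^12 (1 + h + h²/2)`. And `e^28 < 1.5·10^12`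
(`e^28 = 1.4462...·10^12`, from `Real.exp_one_gt_d9`, `Real.exp_one_lt_d9`).
(b) So `Λ ≥ 6·10^(-14)` and `3 X - 1 ≤ 0.586 P/Λ` gives `X ≤ 5·10^24 < e^57` (`e^57 = 5.68·10^24`), so
`P ≤ 31.6·57 < 1802`. (c) So `Λ ≥ 4.3·10^(-5)`, `3 X - 1 ≤ 0.586·1802/Λ`, `X ≤ 8.2·10^6 < e^16`
(`e^16 = 8.886·10^6`), `P ≤ 505.6`. (d) So `Λ ≥ 0.00102`, `3 X - 1 ≤ 0.586·505.6/Λ`,
`X ≤ 96900`, `X² < e^23` (`e^23 = 9.7448·10^9`), `log X ≤ 11.5`, `P ≤ 363.4`, and again
`3 X - 1 ≤ 0.586·363.4/0.00102 < 208774`, so `X < 72000`, a contradiction. -/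
def RED : Prop :=
  ∀ (P : ℕ) (X Λ : ℝ), 1 ≤ P → 72000 < X → (P : ℝ) ≤ 316 / 10 * Real.log X →
    Real.log X ≤ F P → (3 * X - 1) * Λ ≤ 586 / 1000 * P →
    (P < 665 → (102 / 100000 : ℝ) ≤ Λ) → (P < 15601 → (43 / 1000000 : ℝ) ≤ Λ) →
    (P < 6 * 10 ^ 12 → (6 / 10 ^ 14 : ℝ) ≤ Λ) → False

/-- **Piece SUM** (60 lines). Proof: as `sum_log` in `CW/Base.lean` (copy it), by induction on `j`,
for `|log x_j - log x_0 - (j log 3 - (j + odd) log 2)| ≤ odd x0 j / (3 x0 - 1)`: an even step gives no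
error, an odd step the error `|log (1 + u)|` with `|u| = 1 / (3 z)`, `z ≥ x0 ≥ 2`, and
`|log (1 + u)| ≤ |u| / (1 - |u|) = 1 / (3 z - 1) ≤ 1 / (3 x0 - 1)`. At the end `x_P = x_0`. -/
def SUM : Prop :=
  ∀ x0 P : ℕ, 1 < x0 → cw^[P] x0 = x0 → (∀ i, x0 ≤ cw^[i] x0) →
    |P * Real.log 3 - ((P + odd x0 P : ℕ) : ℝ) * Real.log 2| ≤ (odd x0 P : ℝ) / (3 * x0 - 1)

/-- **Piece EVN** (helper46). The even elements. -/
def EVN : Prop :=
  ∀ x0 P : ℕ, 1 < x0 → 1 ≤ P → cw^[P] x0 = x0 → (∀ i, x0 ≤ cw^[i] x0) →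
    ((P : ℝ) - odd x0 P) * Real.log 2 ≤
      (∑ t ∈ Finset.range (nmin x0 P), la ^ t) * Real.log x0

end Pool.Agent.W2helper46.CW
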