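import Mathlib
import Pool.Agent.W2helper46.CW.Stm

/-!
# Conway's permutation: the number of even elements of a cycle
-/

set_option autoImplicit false

namespace Pool.Agent.W2helper46.CW

/-- `1 + λ + ... + λ ^ (c - 1)` -/
noncomputable def Sg (c : ℕ) : ℝ := ∑ t ∈ Finset.range c, la ^ t

lemma Sg_succ (c : ℕ) : Sg (c + 1) = Sg c + la ^ c := Finset.sum_range_succ _ _

lemma Sg_nonneg (c : ℕ) : 0 ≤ Sg c :=
  Finset.sum_nonneg fun t _ => pow_nonneg (by have := la_gt; linarith) t

/-- the invariant along the orbit, with the number of even elements -/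
def Inv2 (x0 : ℕ) (i : ℕ) : Prop :=
  ∃ y : ℕ, 0 < y ∧ Real.log y ≤ la ^ (Nat.count (lm x0) i) * Real.log x0 ∧
    ((∃ j : ℕ, 2 ^ j ∣ y ∧ 2 ^ j * cw^[i] x0 = 3 ^ j * y ∧
        ((i : ℝ) - odd x0 i - j) * Real.log 2 ≤ Sg (Nat.count (lm x0) i) * Real.log x0) ∨
      (cw^[i] x0 % 2 = 1 ∧ Real.log (cw^[i] x0) ≤ la * Real.log y ∧
        ((i : ℝ) - odd x0 i) * Real.log 2 ≤ Sg (Nat.count (lm x0) i + 1) * Real.log x0))

lemma even_bound {x0 i y j c : ℕ} (hy : 0 < y) (h1 : Real.log y ≤ la ^ c * Real.log x0)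
    (hj : 2 ^ j ∣ y)
    (h3 : ((i : ℝ) - odd x0 i - j) * Real.log 2 ≤ Sg c * Real.log x0) :
    ((i : ℝ) - odd x0 i) * Real.log 2 ≤ Sg (c + 1) * Real.log x0 := by
  have h4 : (2 : ℝ) ^ j ≤ y := by exact_mod_cast Nat.le_of_dvd hy hj
  have h5 : (j : ℝ) * Real.log 2 ≤ Real.log y := by
    rw [← Real.log_pow]
    exact Real.log_le_log (by positivity) h4
  rw [Sg_succ, add_mul]
  linarith

lemma inv2_odd {x0 i : ℕ} (h : Inv2 x0 i) :
    ((i : ℝ) - odd x0 i) * Real.log 2 ≤ Sg (Nat.count (lm x0) i + 1) * Real.log x0 := by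
  obtain ⟨y, hy, h1, h2⟩ := h
  rcases h2 with ⟨j, hj, -, h3⟩ | ⟨-, -, h3⟩
  · exact even_bound hy h1 hj h3
  · exact h3

lemma odd_succ (x0 i : ℕ) : odd x0 (i + 1) = odd x0 i + (if cw^[i] x0 % 2 = 1 then 1 else 0) := by
  unfold odd
  rw [Nat.count_succ]

lemma inv2_all {x0 : ℕ} (hx : 0 < x0) (hge : ∀ i, 2 ≤ cw^[i] x0) (i : ℕ) : Inv2 x0 i := by
  have hla := la_gt
  have hx0 : 0 ≤ Real.log x0 := Real.log_nonneg (by exact_mod_cast hx)
  induction i with
  | zero =>
    refine ⟨x0, hx, ?_, Or.inl ⟨0, by simp, by simp, ?_⟩⟩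
    · simp
    · simp [odd, Sg]
  | succ i ih =>
    have hodd0 := inv2_odd ih
    obtain ⟨y, hy, h1, h2⟩ := ih
    set z := cw^[i] x0 with hz
    have hz0 : 0 < z := it_pos hx i
    have hz' : cw^[i + 1] x0 = cw z := Function.iterate_succ_apply' cw i x0
    have hmono : Nat.count (lm x0) i ≤ Nat.count (lm x0) (i + 1) :=
      Nat.count_monotone _ (Nat.le_succ i)
    have hpow : la ^ (Nat.count (lm x0) i) * Real.log x0 ≤
        la ^ (Nat.count (lm x0) (i + 1)) * Real.log x0 :=
      mul_le_mul_of_nonneg_right (pow_le_pow_right₀ hla.le hmono) hx0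
    have hSmono : ∀ c c' : ℕ, c ≤ c' → Sg c * Real.log x0 ≤ Sg c' * Real.log x0 := by
      intro c c' hcc
      refine mul_le_mul_of_nonneg_right ?_ hx0
      exact Finset.sum_le_sum_of_subset_of_nonneg (Finset.range_mono hcc)
        fun t _ _ => pow_nonneg (by linarith) t
    have hzlog : Real.log z ≤ la * Real.log y := by
      rcases h2 with ⟨j, hj, hj2, -⟩ | ⟨-, h2, -⟩
      · exact log_of_up hy hz0 hj hj2
      · exact h2
    rcases Nat.mod_two_eq_zero_or_one z with hzp | hzp
    · -- even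
      have e1 := cw_even hzp
      rcases h2 with ⟨j, hj, hj2, hj3⟩ | ⟨h3, -⟩
      · refine ⟨y, hy, h1.trans hpow, Or.inl ⟨j + 1, ?_, ?_, ?_⟩⟩
        · have h4 : 2 ^ (j + 1) ∣ 3 ^ j * y := by
            rw [← hj2, pow_succ]
            exact Nat.mul_dvd_mul_left _ (Nat.dvd_of_mod_eq_zero hzp)
          exact (Nat.Coprime.dvd_of_dvd_mul_left
            ((Nat.Coprime.pow_left _ (Nat.Coprime.pow_right _ (by norm_num)))) h4)
        · rw [hz', pow_succ, mul_assoc, e1, pow_succ]
          calc 2 ^ j * (3 * z) = 3 * (2 ^ j * z) := by ring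
            _ = 3 ^ j * 3 * y := by rw [hj2]; ring
        · have e2 : odd x0 (i + 1) = odd x0 i := by
            rw [odd_succ, ← hz, if_neg (by omega), add_zero]
          rw [e2]
          refine le_trans (le_of_eq ?_) (hj3.trans (hSmono _ _ hmono))
          push_cast
          ring
      · omega
    · -- odd
      have e1 := cw_odd hzp
      have hz3 : 3 ≤ z := by
        have : 2 ≤ z := hge i
        omega
      have hlt : cw z < z := by omega
      have hcz : 0 < cw z := cw_pos hz0
      have hlog : Real.log (cw z) ≤ Real.log z :=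
        Real.log_le_log (by exact_mod_cast hcz) (by exact_mod_cast hlt.le)
      have e3 : odd x0 (i + 1) = odd x0 i + 1 := by
        rw [odd_succ, ← hz, if_pos hzp]
      rcases Nat.mod_two_eq_zero_or_one (cw z) with hp | hp
      · -- local minimum
        have e2 := cw_even hp
        have hlm : lm x0 i := by
          unfold lm
          have hz2 : cw^[i + 2] x0 = cw (cw z) := by
            rw [← hz']
            exact Function.iterate_succ_apply' cw (i + 1) x0
          rw [hz', hz2]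
          exact ⟨hlt, by omega⟩
        have hc : Nat.count (lm x0) (i + 1) = Nat.count (lm x0) i + 1 := by
          rw [Nat.count_succ, if_pos hlm]
        refine ⟨cw z, hcz, ?_, Or.inl ⟨0, by simp, by rw [hz']; simp, ?_⟩⟩
        · rw [hc]
          calc Real.log (cw z) ≤ la * Real.log y := hlog.trans hzlog
            _ ≤ la * (la ^ (Nat.count (lm x0) i) * Real.log x0) :=
                mul_le_mul_of_nonneg_left h1 (by linarith)
            _ = _ := by ring
        · rw [hc, e3]
          refine le_trans (le_of_eq ?_) hodd0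
          push_cast
          ring
      · refine ⟨y, hy, h1.trans hpow, Or.inr ⟨?_, ?_, ?_⟩⟩
        · rw [hz']; exact hp
        · rw [hz']; exact hlog.trans hzlog
        · rw [e3]
          refine le_trans (le_of_eq ?_) (hodd0.trans (hSmono _ _ (by omega)))
          push_cast
          ring

/-- the last step of the cycle of the smallest element -/
lemma last_step {x0 P : ℕ} (hx : 1 < x0) (hP : 1 ≤ P) (hper : cw^[P] x0 = x0)
    (hmin : ∀ i, x0 ≤ cw^[i] x0) :
    x0 % 2 = 0 ∧ cw^[P - 1] x0 % 2 = 1 ∧ lm x0 (P - 1) := by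
  have hx0 : x0 % 2 = 0 := by
    by_contra h
    have e := cw_odd (n := x0) (by omega)
    have h1 : x0 ≤ cw x0 := hmin 1
    omega
  have e0 := cw_even hx0
  have e1 : P - 1 + 1 = P := by omega
  have hz' : cw^[P] x0 = cw (cw^[P - 1] x0) := by
    have h := Function.iterate_succ_apply' cw (P - 1) x0
    rwa [Nat.succ_eq_add_one, e1] at h
  have hge := hmin (P - 1)
  have hodd : cw^[P - 1] x0 % 2 = 1 := by
    by_contra h
    have e := cw_even (n := cw^[P - 1] x0) (by omega)
    rw [← hz', hper] at e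
    omega
  refine ⟨hx0, hodd, ?_⟩
  unfold lm
  have e2 : P - 1 + 2 = P + 1 := by omega
  have h2 : cw^[P + 1] x0 = cw x0 := by
    rw [Function.iterate_succ_apply', hper]
  have e3 := cw_odd hodd
  rw [← hz', hper] at e3
  rw [e1, e2, hper, h2]
  constructor <;> omega

theorem evn : EVN := by
  intro x0 P hx hP hper hmin
  have hge : ∀ i, 2 ≤ cw^[i] x0 := fun i => (show 2 ≤ x0 from hx).trans (hmin i)
  obtain ⟨-, hodd, hlm⟩ := last_step hx hP hper hmin
  have h := inv2_odd (inv2_all (show 0 < x0 by omega) hge (P - 1))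
  have e1 : P - 1 + 1 = P := by omega
  have hn : nmin x0 P = Nat.count (lm x0) (P - 1) + 1 := by
    unfold nmin
    conv_lhs => rw [← e1]
    rw [Nat.count_succ, if_pos hlm]
  have ho : odd x0 P = odd x0 (P - 1) + 1 := by
    have := odd_succ x0 (P - 1)
    rw [e1, if_pos hodd] at this
    exact this
  rw [hn, ho]
  refine le_trans (le_of_eq ?_) h
  rw [Nat.cast_sub hP]
  push_cast
  ring

end Pool.Agent.W2helper46.CW
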