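import Mathlib
import Pool.Agent.W2helper46.CW.EVN

/-!
# Conway's permutation: cycles with at most four local minima
-/

set_option autoImplicit false

namespace Pool.Agent.W2helper46.CW

lemma min_small (hC : CHK) {x0 P : ℕ} (hx : 1 < x0) (hP : 1 ≤ P) (hper : cw^[P] x0 = x0)
    (hmin : ∀ i, x0 ≤ cw^[i] x0) (hb : nmin x0 P ≤ 4) (hle : x0 ≤ 72000) (h3 : x0 % 3 ≠ 0)
    (h2 : x0 % 2 = 0) : x0 = 2 ∨ x0 = 4 ∨ x0 = 44 := by
  by_contra hcon
  push Not at hcon
  obtain ⟨i, hi, h⟩ := hC x0 hx hle h2 h3 hcon.1 hcon.2.1 hcon.2.2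
  rcases Nat.lt_or_ge i P with hiP | hiP
  · rcases h with h | h
    · exact absurd (hmin i) (by omega)
    · have h5 : Nat.count (lm x0) i ≤ Nat.count (lm x0) P := Nat.count_monotone _ hiP.le
      unfold nmin at hb
      omega
  · exact hi P hP hiP hper

lemma min_large (hE : ENC) (hL : LOW) (hR : RED) (hS : SUM) {x0 P : ℕ} (hx : 72000 < x0)
    (hP : 1 ≤ P) (hper : cw^[P] x0 = x0) (hmin : ∀ i, x0 ≤ cw^[i] x0) (hb : nmin x0 P ≤ 4) :
    False := by
  obtain ⟨l2a, l2b, l3a, l3b⟩ := hE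
  have hXR : (72000 : ℝ) < x0 := by exact_mod_cast hx
  have hPR : (1 : ℝ) ≤ P := by exact_mod_cast hP
  have hlog2 := log2_pos
  have hlX : 0 ≤ Real.log x0 := Real.log_nonneg (by linarith)
  have h2lo : (69314718 / 10 ^ 8 : ℝ) ≤ Real.log 2 := by
    refine le_trans ?_ l2a
    norm_num
  have h2hi : Real.log 2 ≤ (69314719 / 10 ^ 8 : ℝ) := by
    refine le_trans l2b ?_
    norm_num
  have h3lo : (109861228 / 10 ^ 8 : ℝ) ≤ Real.log 3 := by
    refine le_trans ?_ l3a
    norm_num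
  have h3hi : Real.log 3 ≤ (109861229 / 10 ^ 8 : ℝ) := by
    refine le_trans l3b ?_
    norm_num
  set o : ℕ := odd x0 P with ho
  have hsum := hS x0 P (by omega) hper hmin
  rw [← ho] at hsum
  set Λ : ℝ := |(P : ℝ) * Real.log 3 - ((P + o : ℕ) : ℝ) * Real.log 2| with hΛ
  have hΛ0 : 0 ≤ Λ := abs_nonneg _
  have ho0 : (0 : ℝ) ≤ o := Nat.cast_nonneg _
  have hX3 : (0 : ℝ) < 3 * x0 - 1 := by linarith
  have h1 : (3 * (x0 : ℝ) - 1) * Λ ≤ o := by
    rw [le_div_iff₀ hX3] at hsum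
    linarith
  have h2 : 200000 * Λ ≤ o := by
    have : 200000 * Λ ≤ (3 * (x0 : ℝ) - 1) * Λ := mul_le_mul_of_nonneg_right (by linarith) hΛ0
    linarith
  have h3 : -Λ ≤ (P : ℝ) * Real.log 3 - ((P + o : ℕ) : ℝ) * Real.log 2 := neg_abs_le _
  have h4 : (o : ℝ) ≤ 585 / 1000 * P := by
    push_cast at h3
    have e1 : (o : ℝ) * (69314718 / 10 ^ 8) ≤ o * Real.log 2 :=
      mul_le_mul_of_nonneg_left h2lo ho0
    have e2 : (P : ℝ) * (Real.log 3 - Real.log 2) ≤ P * (40546511 / 10 ^ 8) :=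
      mul_le_mul_of_nonneg_left (by linarith) (by linarith)
    nlinarith
  have hla : la ≤ 1585 / 1000 := by
    unfold la
    rw [div_le_iff₀ hlog2]
    linarith
  have hla1 := la_gt
  have hSg : Sg (nmin x0 P) ≤ 908 / 100 := by
    have e1 : Sg (nmin x0 P) ≤ Sg 4 :=
      Finset.sum_le_sum_of_subset_of_nonneg (Finset.range_mono hb)
        fun t _ _ => pow_nonneg (by linarith) t
    have e2 : Sg 4 = 1 + la + la ^ 2 + la ^ 3 := by
      unfold Sg
      simp [Finset.sum_range_succ]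
    have e3 : la ^ 2 ≤ (1585 / 1000) ^ 2 := pow_le_pow_left₀ (by linarith) hla 2
    have e4 : la ^ 3 ≤ (1585 / 1000) ^ 3 := pow_le_pow_left₀ (by linarith) hla 3
    rw [e2] at e1
    norm_num at e3 e4
    linarith
  have hev := evn x0 P (by omega) hP hper hmin
  rw [← ho] at hev
  have h5 : ((P : ℝ) - o) * Real.log 2 ≤ 908 / 100 * Real.log x0 :=
    hev.trans (mul_le_mul_of_nonneg_right hSg hlX)
  have h6 : (P : ℝ) ≤ 316 / 10 * Real.log x0 := by
    have e1 : (415 / 1000 * (P : ℝ)) * (69314718 / 10 ^ 8) ≤ ((P : ℝ) - o) * Real.log 2 :=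
      mul_le_mul (by linarith) h2lo (by norm_num) (by linarith)
    linarith
  have hlow := hL ⟨l2a, l2b, l3a, l3b⟩ P (P + o) hP
  exact hR P x0 Λ hP hXR h6 (min_bound x0 P (by omega) hP hper hmin) (by linarith) hlow.1 hlow.2.1
    hlow.2.2

/-- the elements of the four known cycles -/
def known : Finset ℕ :=
  {1, 2, 3, 4, 6, 9, 7, 5, 44, 66, 99, 74, 111, 83, 62, 93, 70, 105, 79, 59}

lemma known_closed : ∀ x ∈ known, cw x ∈ known := by decide

lemma known_it {x : ℕ} (hx : x ∈ known) (i : ℕ) : cw^[i] x ∈ known := by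
  induction i with
  | zero => exact hx
  | succ i ih => rw [Function.iterate_succ_apply']; exact known_closed _ ih

theorem four_of (hC : CHK) (hE : ENC) (hL : LOW) (hR : RED) (hS : SUM) {x P : ℕ} (hx : 0 < x)
    (hP : 1 ≤ P) (hper : cw^[P] x = x) (hb : nmin x P ≤ 4) : x ∈ known := by
  obtain ⟨i0, i1, hi0, hper0, hmin, hback, hn⟩ := rotate hP hper
  have hx0 : 0 < cw^[i0] x := it_pos hx i0
  set x0 := cw^[i0] x with hx0'
  rw [← hback]
  apply known_it
  rcases Nat.lt_or_ge 1 x0 with h1 | h1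
  swap
  · have : x0 = 1 := by omega
    rw [this]
    decide
  obtain ⟨he, hodd, hlm⟩ := last_step h1 hP hper0 hmin
  have h3 : x0 % 3 ≠ 0 := by
    have e1 : P - 1 + 1 = P := by omega
    have hz' : cw^[P] x0 = cw (cw^[P - 1] x0) := by
      have h := Function.iterate_succ_apply' cw (P - 1) x0
      rwa [Nat.succ_eq_add_one, e1] at h
    have e3 := cw_odd hodd
    rw [← hz', hper0] at e3
    omega
  rw [← hn] at hb
  rcases Nat.lt_or_ge 72000 x0 with h7 | h7
  · exact (min_large hE hL hR hS h7 hP hper0 hmin hb).elim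
  · rcases min_small hC h1 hP hper0 hmin hb h7 h3 he with h | h | h <;> rw [h] <;> decide

end Pool.Agent.W2helper46.CW
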