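import Pool.Agent.W2helper46.CW.Stm

/-!
# Piece LOW
-/

set_option autoImplicit false

namespace Pool.Agent.W2helper46.CW

/-- Farey lemma. -/
theorem low_farey (A B δ : ℝ) (p q p' q' : ℤ) (hq : 0 < q) (hq' : 0 < q')
    (h : p' * q - p * q' = 1) (hδ : 0 < δ) (h1 : δ ≤ q * A - p * B) (h2 : δ ≤ p' * B - q' * A)
    (P a : ℤ) (hP : 1 ≤ P) (hP' : P < q + q') : δ ≤ |(P : ℝ) * A - a * B| := by
  obtain ⟨u, hu⟩ : ∃ u : ℤ, u = P * p' - a * q' := ⟨_, rfl⟩
  obtain ⟨v, hv⟩ : ∃ v : ℤ, v = a * q - P * p := ⟨_, rfl⟩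
  have eP : P = u * q + v * q' := by
    rw [hu, hv]; linear_combination (-P) * h
  have ea : a = u * p + v * p' := by
    rw [hu, hv]; linear_combination (-a) * h
  have e : (P : ℝ) * A - a * B = u * (q * A - p * B) - v * (p' * B - q' * A) := by
    have eP' : (P : ℝ) = u * q + v * q' := by exact_mod_cast eP
    have ea' : (a : ℝ) = u * p + v * p' := by exact_mod_cast ea
    rw [eP', ea']; ring
  rcases le_or_gt 1 u with hu1 | hu1
  · rcases le_or_gt 1 v with hv1 | hv1
    · exfalso
      nlinarith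
    · have hu2 : (1 : ℝ) ≤ u := by exact_mod_cast hu1
      have hv2 : (v : ℝ) ≤ 0 := by exact_mod_cast (by omega : v ≤ 0)
      refine le_trans ?_ (le_abs_self _)
      rw [e]
      nlinarith
  · rcases le_or_gt 1 v with hv1 | hv1
    · have hv2 : (1 : ℝ) ≤ v := by exact_mod_cast hv1
      have hu2 : (u : ℝ) ≤ 0 := by exact_mod_cast (by omega : u ≤ 0)
      refine le_trans ?_ (neg_le_abs _)
      rw [e]
      nlinarith
    · exfalso
      have hu2 : u ≤ 0 := by omega
      have hv2 : v ≤ 0 := by omega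
      nlinarith

/-- The Farey lemma for natural numbers and the logarithms. -/
theorem low_log (δ : ℝ) (p q p' q' : ℤ) (hq : 0 < q) (hq' : 0 < q')
    (h : p' * q - p * q' = 1) (hδ : 0 < δ) (h1 : δ ≤ q * Real.log 3 - p * Real.log 2)
    (h2 : δ ≤ p' * Real.log 2 - q' * Real.log 3)
    (P a : ℕ) (hP : 1 ≤ P) (hP' : (P : ℤ) < q + q') :
    δ ≤ |(P : ℝ) * Real.log 3 - a * Real.log 2| := by
  have := low_farey (Real.log 3) (Real.log 2) δ p q p' q' hq hq' h hδ h1 h2 P a
    (by exact_mod_cast hP) hP'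
  simpa only [Int.cast_natCast] using this

/-- **Piece LOW.** -/
theorem low : LOW := by
  rintro ⟨l2, u2, l3, u3⟩ P a hP
  refine ⟨fun hP' => ?_, fun hP' => ?_, fun hP' => ?_⟩
  · refine low_log _ 569 359 485 306 (by norm_num) (by norm_num) (by norm_num) (by norm_num) ?_ ?_
      P a hP (by omega)
    · push_cast
      linarith
    · push_cast
      linarith
  · refine low_log _ 1054 665 23673 14936 (by norm_num) (by norm_num) (by norm_num) (by norm_num)
      ?_ ?_ P a hP (by omega)
    · push_cast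
      linarith
    · push_cast
      linarith
  · refine low_log _ 1193652440098 753110839881 8573543875303 5409303924479 (by norm_num)
      (by norm_num) (by norm_num) (by norm_num) ?_ ?_ P a hP (by omega)
    · push_cast
      linarith
    · push_cast
      linarith

end Pool.Agent.W2helper46.CW
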