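import Mathlib
import Pool.Agent.W2helper46.CW.Stm

set_option autoImplicit false

/-!
# Conway's permutation: piece RED (real inequalities; helper73)
-/

namespace Pool.Agent.W2helper46.CW

/-- powers of `e` -/
theorem exp_nat_gt (n : ℕ) (c : ℝ) (h : c < (2.7182818283 : ℝ) ^ n) : c < Real.exp n := by
  rw [← Real.exp_one_pow]
  exact h.trans_le (pow_le_pow_left₀ (by norm_num) Real.exp_one_gt_d9.le n)

/-- powers of `e` -/
theorem exp_nat_lt (n : ℕ) (c : ℝ) (h : (2.7182818286 : ℝ) ^ n < c) : Real.exp n < c := by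
  rw [← Real.exp_one_pow]
  exact (pow_le_pow_left₀ (Real.exp_pos 1).le Real.exp_one_lt_d9.le n).trans_lt h

theorem red : RED := by
  intro P X Λ hP hX h1 h2 h3 h665 h15601 h6
  have hX0 : 0 < X := by linarith
  have hP0 : (1 : ℝ) ≤ P := by exact_mod_cast hP
  have hPp : (0 : ℝ) < P := by linarith
  have e28l : (1.44 * 10 ^ 12 : ℝ) < Real.exp 28 := by
    have := exp_nat_gt 28 (1.44 * 10 ^ 12) (by norm_num)
    exact_mod_cast this
  have e28u : Real.exp 28 < (1.5 * 10 ^ 12 : ℝ) := by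
    have := exp_nat_lt 28 (1.5 * 10 ^ 12) (by norm_num)
    exact_mod_cast this
  have e57 : (5 * 10 ^ 24 : ℝ) < Real.exp 57 := by
    have := exp_nat_gt 57 (5 * 10 ^ 24) (by norm_num)
    exact_mod_cast this
  have e16 : (8.5 * 10 ^ 6 : ℝ) < Real.exp 16 := by
    have := exp_nat_gt 16 (8.5 * 10 ^ 6) (by norm_num)
    exact_mod_cast this
  have e23 : (9.6 * 10 ^ 9 : ℝ) < Real.exp 23 := by
    have := exp_nat_gt 23 (9.6 * 10 ^ 9) (by norm_num)
    exact_mod_cast this
  -- (a)
  have ha : (P : ℝ) < Real.exp 28 := by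
    by_contra hcon
    have hge : Real.exp 28 ≤ P := not_lt.1 hcon
    have hL : 28 ≤ Real.log P := (Real.le_log_iff_exp_le hPp).2 hge
    have hq := Real.quadratic_le_exp_of_nonneg (x := Real.log P - 28) (by linarith)
    have hPe : (P : ℝ) = Real.exp 28 * Real.exp (Real.log P - 28) := by
      rw [← Real.exp_add]
      have : 28 + (Real.log P - 28) = Real.log P := by ring
      rw [this, Real.exp_log hPp]
    have hF : (P : ℝ) ≤ 316 / 10 * (22000000 * (11 + Real.log P) ^ 2) := by
      have h22 : Real.log X ≤ 22000000 * (11 + Real.log P) ^ 2 := h2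
      linarith
    set y := Real.log P - 28 with hy
    have hy0 : 0 ≤ y := by linarith
    have hlog : Real.log P = y + 28 := by rw [hy]; ring
    rw [hlog] at hF
    have hlow : 1.44 * 10 ^ 12 * (1 + y + y ^ 2 / 2) ≤ (P : ℝ) := by
      rw [hPe]
      exact mul_le_mul e28l.le hq (by positivity) (Real.exp_pos _).le
    nlinarith [sq_nonneg y]
  -- (b)
  have hPb : (P : ℝ) < 1.5 * 10 ^ 12 := ha.trans e28u
  have hP6 : P < 6 * 10 ^ 12 := by
    have : (P : ℝ) < ((6 * 10 ^ 12 : ℕ) : ℝ) := by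
      push_cast
      linarith
    exact_mod_cast this
  have hΛ1 := h6 hP6
  have h3X : 0 < 3 * X - 1 := by linarith
  have hb1 : (3 * X - 1) * (6 / 10 ^ 14) ≤ (3 * X - 1) * Λ :=
    mul_le_mul_of_nonneg_left hΛ1 h3X.le
  have hX1 : X < 5 * 10 ^ 24 := by
    by_contra hcon
    have := not_lt.1 hcon
    norm_num at *
    linarith
  have hlX1 : Real.log X < 57 := (Real.log_lt_iff_lt_exp hX0).2 (hX1.trans e57)
  have hP1 : (P : ℝ) < 1801.2 := by linarith
  -- (c)
  have hP15 : P < 15601 := by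
    have : (P : ℝ) < ((15601 : ℕ) : ℝ) := by
      push_cast
      linarith
    exact_mod_cast this
  have hΛ2 := h15601 hP15
  have hc1 : (3 * X - 1) * (43 / 1000000) ≤ (3 * X - 1) * Λ :=
    mul_le_mul_of_nonneg_left hΛ2 h3X.le
  have hX2 : X < 8.5 * 10 ^ 6 := by
    by_contra hcon
    have := not_lt.1 hcon
    linarith
  have hlX2 : Real.log X < 16 := (Real.log_lt_iff_lt_exp hX0).2 (hX2.trans e16)
  have hP2 : (P : ℝ) < 505.6 := by linarith
  -- (d)
  have hP65 : P < 665 := by
    have : (P : ℝ) < ((665 : ℕ) : ℝ) := by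
      push_cast
      linarith
    exact_mod_cast this
  have hΛ3 := h665 hP65
  have hd1 : (3 * X - 1) * (102 / 100000) ≤ (3 * X - 1) * Λ :=
    mul_le_mul_of_nonneg_left hΛ3 h3X.le
  have hX3 : X < 96900 := by
    by_contra hcon
    have := not_lt.1 hcon
    linarith
  have hXsq : X ^ 2 < Real.exp 23 := by
    have : X ^ 2 ≤ 96900 ^ 2 := pow_le_pow_left₀ hX0.le hX3.le 2
    have h4 : (96900 : ℝ) ^ 2 < 9.6 * 10 ^ 9 := by norm_num
    linarith
  have hlX3 : Real.log X < 11.5 := by
    have h5 : Real.log (X ^ 2) < 23 := (Real.log_lt_iff_lt_exp (by positivity)).2 hXsq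
    rw [Real.log_pow] at h5
    push_cast at h5
    linarith
  have hP3 : (P : ℝ) < 363.4 := by linarith
  linarith

end Pool.Agent.W2helper46.CW
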