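import Mathlib
import Pool.Agent.W2helper46.CW.Stm

/-!
# Piece SUM: the sharper version of `sum_log` (helper49)
-/

set_option autoImplicit false

namespace Pool.Agent.W2helper46.CW

lemma abs_log_sharp {u : ℝ} (hu : |u| < 1) : |Real.log (1 + u)| ≤ |u| / (1 - |u|) := by
  have h1 := abs_lt.1 hu
  have hpos : 0 < 1 + u := by linarith
  have hm : 0 < 1 - |u| := by linarith
  have hup := Real.log_le_sub_one_of_pos hpos
  have hlow := Real.one_sub_inv_le_log_of_pos hpos
  have h2 : 1 - (1 + u)⁻¹ = u / (1 + u) := by field_simp; ring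
  rw [h2] at hlow
  have h0 : 0 ≤ |u| / (1 - |u|) := div_nonneg (abs_nonneg u) hm.le
  rw [abs_le]
  constructor
  · rcases le_or_gt 0 u with h | h
    · have : 0 ≤ u / (1 + u) := by positivity
      linarith
    · rw [abs_of_neg h]
      have h3 : -(-u / (1 - -u)) = u / (1 + u) := by
        rw [sub_neg_eq_add, neg_div, neg_neg]
      rw [h3]
      exact hlow
  · have h3 : |u| ≤ |u| / (1 - |u|) := by
      rw [le_div_iff₀ hm]
      nlinarith [abs_nonneg u]
    have := le_abs_self u
    linarith

lemma sum_sharp {x0 : ℕ} (hx : 1 < x0) (hmin : ∀ i, x0 ≤ cw^[i] x0) (j : ℕ) :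
    |Real.log (cw^[j] x0) - Real.log x0 -
      (j * Real.log 3 - ((j + odd x0 j : ℕ) : ℝ) * Real.log 2)| ≤
        (odd x0 j : ℝ) * (1 / (3 * (x0 : ℝ) - 1)) := by
  have hX : (2 : ℝ) ≤ x0 := by exact_mod_cast hx
  have hD : 0 < 3 * (x0 : ℝ) - 1 := by linarith
  induction j with
  | zero => simp [odd]
  | succ j ih =>
    set z := cw^[j] x0 with hz
    have hz0 : 0 < z := it_pos (by omega) j
    have hzX : (x0 : ℝ) ≤ z := by exact_mod_cast hmin j
    have hz' : cw^[j + 1] x0 = cw z := Function.iterate_succ_apply' cw j x0
    have hcz : 0 < cw z := cw_pos hz0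
    have hzR : (0 : ℝ) < z := by exact_mod_cast hz0
    have hczR : (0 : ℝ) < cw z := by exact_mod_cast hcz
    have hstep : |Real.log (cw z) - Real.log z - (Real.log 3 -
        ((1 + (if z % 2 = 1 then 1 else 0) : ℕ) : ℝ) * Real.log 2)| ≤
          ((if z % 2 = 1 then 1 else 0 : ℕ) : ℝ) * (1 / (3 * (x0 : ℝ) - 1)) := by
      rcases Nat.mod_two_eq_zero_or_one z with h | h
      · have e := cw_even h
        have e' : (2 : ℝ) * cw z = 3 * z := by exact_mod_cast e
        have e2 := congrArg Real.log e'
        rw [Real.log_mul (by norm_num) hczR.ne', Real.log_mul (by norm_num) hzR.ne'] at e2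
        rw [if_neg (by omega)]
        have : Real.log (cw z) - Real.log z - (Real.log 3 - ((1 + 0 : ℕ) : ℝ) * Real.log 2) = 0 := by
          push_cast
          linarith
        rw [this, abs_zero]
        simp
      · rw [if_pos h]
        have hlog4 : Real.log 4 = 2 * Real.log 2 := by
          rw [show (4 : ℝ) = 2 ^ 2 by norm_num, Real.log_pow]; norm_num
        have key : ∀ u : ℝ, |u| = 1 / (3 * z) → (4 : ℝ) * cw z = 3 * z * (1 + u) →
            |Real.log (cw z) - Real.log z - (Real.log 3 - ((1 + 1 : ℕ) : ℝ) * Real.log 2)| ≤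
              ((1 : ℕ) : ℝ) * (1 / (3 * (x0 : ℝ) - 1)) := by
          intro u hu he
          have hz1 : (2 : ℝ) ≤ z := hX.trans hzX
          have hu2 : |u| ≤ 1 / 2 := by
            rw [hu]
            apply div_le_div_of_nonneg_left (by norm_num) (by norm_num)
            linarith
          have h1u : 0 < 1 + u := by have := (abs_le.1 hu2).1; linarith
          have e2 := congrArg Real.log he
          rw [Real.log_mul (by norm_num) hczR.ne', Real.log_mul (by positivity) h1u.ne',
            Real.log_mul (by norm_num) hzR.ne', hlog4] at e2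
          have e3 : Real.log (cw z) - Real.log z - (Real.log 3 - ((1 + 1 : ℕ) : ℝ) * Real.log 2) =
              Real.log (1 + u) := by
            push_cast
            linarith
          rw [e3]
          refine (abs_log_sharp (by linarith)).trans ?_
          have hz3 : (0 : ℝ) < 3 * z - 1 := by linarith
          have e4 : |u| / (1 - |u|) = 1 / (3 * (z : ℝ) - 1) := by
            rw [hu]
            have h3z : (3 * (z : ℝ)) ≠ 0 := by positivity
            have h5 : 1 - 1 / (3 * (z : ℝ)) = (3 * z - 1) / (3 * z) := by field_simp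
            rw [h5, div_div_div_cancel_right₀ h3z]
          rw [e4, Nat.cast_one, one_mul]
          apply one_div_le_one_div_of_le hD
          linarith
        rcases cw_odd h with e | e
        · have e' : (4 : ℝ) * cw z = 3 * z + 1 := by exact_mod_cast e
          refine key (1 / (3 * z)) (abs_of_pos (by positivity)) ?_
          rw [e']
          field_simp
        · have e' : (4 : ℝ) * cw z + 1 = 3 * z := by exact_mod_cast e
          refine key (-(1 / (3 * z))) (by rw [abs_neg, abs_of_pos (by positivity)]) ?_
          have : (4 : ℝ) * cw z = 3 * z - 1 := by linarith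
          rw [this]
          field_simp
          ring
    have hodd : odd x0 (j + 1) = odd x0 j + (if z % 2 = 1 then 1 else 0) := by
      unfold odd
      rw [Nat.count_succ]
    rw [hz', hodd]
    have e : Real.log (cw z) - Real.log x0 - (((j + 1 : ℕ) : ℝ) * Real.log 3 -
        ((j + 1 + (odd x0 j + (if z % 2 = 1 then 1 else 0)) : ℕ) : ℝ) * Real.log 2) =
        (Real.log z - Real.log x0 - (j * Real.log 3 - ((j + odd x0 j : ℕ) : ℝ) * Real.log 2)) +
        (Real.log (cw z) - Real.log z - (Real.log 3 -
          ((1 + (if z % 2 = 1 then 1 else 0) : ℕ) : ℝ) * Real.log 2)) := by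
      push_cast
      ring
    rw [e]
    refine (abs_add_le _ _).trans ?_
    rw [Nat.cast_add (odd x0 j), add_mul]
    exact add_le_add ih hstep

theorem sum : SUM := by
  intro x0 P hx hper hmin
  have h := sum_sharp hx hmin P
  rw [hper, sub_self, zero_sub, abs_neg, mul_one_div] at h
  exact h

end Pool.Agent.W2helper46.CW
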