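import Mathlib
import Pool.Agent.W2helper46.CW.Four
import Pool.Agent.W2helper46.CW.ENC
import Pool.Agent.W2helper46.CW.LOW
import Pool.Agent.W2helper46.CW.CHK
import Pool.Agent.W2helper46.CW.RED
import Pool.Agent.W2helper46.CW.SUM

/-!
# Conway's permutation: cycles with at most four local minima
-/

set_option autoImplicit false

namespace Pool.Agent.W2helper46.CW

theorem four {x P : ℕ} (hx : 0 < x) (hP : 1 ≤ P) (hper : cw^[P] x = x) (hb : nmin x P ≤ 4) :
    x ∈ known :=
  four_of chk enc low red sum hx hP hper hb

end Pool.Agent.W2helper46.CW
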